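import Pool.Agent.helper27.PC.WR

/-!
# PC project: the seminormal matrices
-/

namespace Pool.Agent.helper27.PC

open Module Finset

section mats

variable {K : Type*} [Field K]

/-- the operator maps the span of `F` to itself -/
def Stab (F : Finset (List Lab)) (φ : Module.End K (List Lab →₀ K)) : Prop :=
  ∀ w ∈ F, ∀ u, φ (Finsupp.single w 1) u ≠ 0 → u ∈ F

/-- matrix on the words of `F` -/
noncomputable def matF (F : Finset (List Lab)) (φ : Module.End K (List Lab →₀ K)) : Matrix F F K :=
  fun w w' => φ (Finsupp.single w'.1 1) w.1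

theorem Stab.expand {F : Finset (List Lab)} {φ : Module.End K (List Lab →₀ K)} (h : Stab F φ)
    {w : List Lab} (hw : w ∈ F) :
    φ (Finsupp.single w 1) = ∑ u ∈ F, φ (Finsupp.single w 1) u • Finsupp.single u (1 : K) := by
  ext u
  rw [Finsupp.finsetSum_apply]
  simp only [Finsupp.smul_apply, smul_eq_mul, Finsupp.single_apply, mul_ite, mul_one, mul_zero]
  rw [Finset.sum_ite_eq']
  split_ifs with h1
  · rfl
  · by_contra h2; exact h1 (h w hw u h2)

theorem matF_mul {F : Finset (List Lab)} {φ ψ : Module.End K (List Lab →₀ K)} (h : Stab F ψ) :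
    matF F (φ * ψ) = matF F φ * matF F ψ := by
  ext w w'
  rw [Matrix.mul_apply]
  unfold matF
  rw [Module.End.mul_apply, h.expand w'.2, map_sum, Finsupp.finsetSum_apply, ← Finset.sum_coe_sort F]
  apply sum_congr rfl
  intro u _
  rw [map_smul, Finsupp.smul_apply, smul_eq_mul, mul_comm, ← h.expand w'.2]

theorem Stab.mul {F : Finset (List Lab)} {φ ψ : Module.End K (List Lab →₀ K)} (h1 : Stab F φ)
    (h2 : Stab F ψ) : Stab F (φ * ψ) := by
  intro w hw u hu
  rw [Module.End.mul_apply, h2.expand hw, map_sum, Finsupp.finsetSum_apply] at hu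
  obtain ⟨t, ht, htu⟩ := Finset.exists_ne_zero_of_sum_ne_zero hu
  rw [map_smul, Finsupp.smul_apply] at htu
  exact h1 t ht u (right_ne_zero_of_smul htu)

theorem Stab.one (F : Finset (List Lab)) : Stab F (1 : Module.End K (List Lab →₀ K)) := by
  intro w hw u hu
  rw [Module.End.one_apply, Finsupp.single_apply] at hu
  split_ifs at hu with h
  · rwa [← h]
  · exact absurd rfl hu

theorem matF_one (F : Finset (List Lab)) : matF F (1 : Module.End K (List Lab →₀ K)) = 1 := by
  ext w w'
  unfold matF
  rw [Module.End.one_apply, Finsupp.single_apply, Matrix.one_apply]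
  congr 1
  rw [eq_comm, Subtype.ext_iff]
  exact propext eq_comm

theorem matF_congr {F : Finset (List Lab)} {φ ψ : Module.End K (List Lab →₀ K)}
    (h : ∀ w ∈ F, φ (Finsupp.single w 1) = ψ (Finsupp.single w 1)) : matF F φ = matF F ψ := by
  ext w w'
  unfold matF
  rw [h _ w'.2]

theorem matF_prod {F : Finset (List Lab)} {ι : Type*} (f : ι → Module.End K (List Lab →₀ K))
    (l : List ι) (h : ∀ i ∈ l, Stab F (f i)) :
    Stab F (l.map f).prod ∧ matF F (l.map f).prod = (l.map fun i => matF F (f i)).prod := by
  induction l with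
  | nil => exact ⟨Stab.one F, matF_one F⟩
  | cons i l ih =>
    obtain ⟨h1, h2⟩ := ih fun j hj => h j (List.mem_cons_of_mem _ hj)
    rw [List.map_cons, List.prod_cons, List.map_cons, List.prod_cons]
    exact ⟨(h i (by simp)).mul h1, by rw [matF_mul h1, h2]⟩

end mats

theorem end_mem_ends {n : ℕ} {S S' : St} {w : List Lab} (h : w ∈ paths n S S') : S' ∈ ends n S := by
  induction n generalizing S w with
  | zero => rw [mem_paths_zero] at h; rw [ends, mem_singleton, h.2]
  | succ n ih =>
    rw [mem_paths_succ] at h
    obtain ⟨l, z, rfl, hl, hz⟩ := h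
    rw [ends, mem_biUnion]
    exact ⟨l, hl, ih hz⟩

theorem mem_allPaths {n : ℕ} {S : St} {w : List Lab} : w ∈ allPaths n S ↔ ∃ S', w ∈ paths n S S' := by
  unfold allPaths
  rw [mem_biUnion]
  exact ⟨fun ⟨S', _, h⟩ => ⟨S', h⟩, fun ⟨S', h⟩ => ⟨S', end_mem_ends h, h⟩⟩

section stab

variable {K : Type*} [Field K] {v : K} {x : Lab → K}

theorem Top_short {i : ℕ} {w : List Lab} (h : w.length ≤ i + 1) (c : K) :
    Top v x i (Finsupp.single w c) = 0 := by
  unfold Top
  rw [Finsupp.linearCombination_single]
  have : tw v x i w = 0 := by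
    induction i generalizing w with
    | zero =>
      match w, h with
      | [], _ => rfl
      | [a], _ => rfl
      | a :: b :: z, h => simp at h
    | succ i ih =>
      match w, h with
      | [], _ => rfl
      | a :: z, h =>
        rw [tw, ih (by simpa using h), Finsupp.mapDomain_zero]
  rw [this, smul_zero]

theorem Stab_Top (hx : XOK v x) (n : ℕ) (S S' : St) (i : ℕ) : Stab (paths n S S') (Top v x i) := by
  intro w hw u hu
  by_cases hi : w.length ≤ i + 1
  · rw [Top_short hi] at hu
    exact absurd rfl hu
  · push Not at hi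
    obtain ⟨p, a, b, z, rfl, hp⟩ := exists_split₂ hi
    rw [Top_append hp, Finsupp.add_apply, Finsupp.single_apply, Finsupp.single_apply] at hu
    by_cases h1 : p ++ a :: b :: z = u
    · rwa [← h1]
    · rw [if_neg h1, zero_add] at hu
      split_ifs at hu with h2
      · rw [← h2]
        obtain ⟨h3, h4⟩ := mem_split₂ hw
        apply h4
        · rintro rfl
          rw [cB_up, mul_zero] at hu; exact hu rfl
        · rintro rfl
          rw [cB_down hx, mul_zero] at hu; exact hu rfl
      · exact absurd rfl hu

theorem Xop_single {i : ℕ} {w : List Lab} (c : K) :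
    Xop x i (Finsupp.single w c) = Finsupp.single w (c * (w[i]?).elim 0 x) := by
  unfold Xop
  rw [Finsupp.linearCombination_single, Finsupp.smul_single, smul_eq_mul]

theorem Stab_Xop (F : Finset (List Lab)) (i : ℕ) : Stab F (Xop x i) := by
  intro w hw u hu
  rw [Xop_single, Finsupp.single_apply] at hu
  split_ifs at hu with h
  · rwa [← h]
  · exact absurd rfl hu

theorem Stab_op (hv : Generic v) (m n : ℕ) (S S' : St) (i : ℕ) : Stab (paths n S S') (op v m i) := by
  cases i with
  | zero => exact Stab_Xop _ _
  | succ i => exact Stab_Top (xK_ok hv m) n S S' i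

theorem Stab.all {n : ℕ} {S : St} {φ : Module.End K (List Lab →₀ K)}
    (h : ∀ S', Stab (paths n S S') φ) : Stab (allPaths n S) φ := by
  intro w hw u hu
  rw [mem_allPaths] at hw ⊢
  obtain ⟨S', hw⟩ := hw
  exact ⟨S', h S' w hw u hu⟩

theorem Stab_op_all (hv : Generic v) (m n : ℕ) (S : St) (i : ℕ) :
    Stab (allPaths n S) (op v m i) := Stab.all fun S' => Stab_op hv m n S S' i

end stab

/-- the first move from the vacuum -/
theorem addable_vac {m : ℕ} {l : Lab} (h : l ∈ addable 1 (vac m)) : l.2 + 1 = m := by
  rw [mem_addable] at h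
  simp only [vac, mem_product, mem_univ, true_and, mem_range, up] at h
  omega

theorem REP : REP_stmt := by
  intro K _ v hv n m hn hnm
  have hx := xK_ok hv m
  have hst : ∀ i, Stab (allPaths n (vac m)) (op v m i) := fun i => Stab_op_all hv m n (vac m) i
  have len : ∀ w ∈ allPaths n (vac m), w.length = n := by
    intro w hw
    rw [mem_allPaths] at hw
    obtain ⟨S', hw⟩ := hw
    exact length_of_mem_paths hw
  have hmat : ∀ φ : Module.End K (List Lab →₀ K), mat n (vac m) φ = matF (allPaths n (vac m)) φ :=
    fun φ => rfl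
  refine ⟨⟨?_, ?_, ?_, ?_⟩, ?_⟩
  · intro i hi
    simp only [hmat]
    rw [← matF_mul (hst i)]
    have : (v - v⁻¹) • matF (allPaths n (vac m)) (op v m i) + 1 =
        matF (allPaths n (vac m)) ((v - v⁻¹) • op v m i + 1) := by
      rw [← matF_one]
      ext w w'
      simp [matF, Matrix.add_apply, Matrix.smul_apply, LinearMap.add_apply, LinearMap.smul_apply]
    rw [this]
    apply matF_congr
    intro w hw
    have hl := len w hw
    rw [LinearMap.add_apply, LinearMap.smul_apply, Module.End.mul_apply, Module.End.one_apply]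
    cases i with
    | zero =>
      rw [mem_allPaths] at hw
      obtain ⟨S', hw⟩ := hw
      obtain ⟨k, rfl⟩ : ∃ k, n = k + 1 := ⟨n - 1, by omega⟩
      rw [mem_paths_succ] at hw
      obtain ⟨a, z, rfl, ha, hz⟩ := hw
      have ha2 := addable_vac ha
      have e : ∀ r : K, op v m 0 (Finsupp.single (a :: z) r) = Finsupp.single (a :: z) (r * xK v m a) := by
        intro r
        exact Xop_append (x := xK v m) (i := 0) (p := []) rfl r
      rw [e, e, Finsupp.smul_single, ← Finsupp.single_add]
      congr 1
      have h0 := hx.v0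
      have : xK v m a = if a.1 then v else - v⁻¹ := by
        unfold xK
        have : 2 * ((a.2 : ℤ) + 1 - m) = 0 := by rw [← ha2]; push_cast; ring
        rw [this, zpow_zero, mul_one]
      rw [this, smul_eq_mul]
      split_ifs
      · field_simp; ring
      · field_simp; ring
    | succ i =>
      obtain ⟨p, a, b, z, rfl, hp⟩ := exists_split₂ (i := i) (w := w) (by omega)
      rw [mem_allPaths] at hw
      obtain ⟨S', hw⟩ := hw
      exact quad_word hx hp (mem_split₂ hw).1
  · intro i hi1 hi2
    simp only [hmat]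
    rw [← matF_mul (hst _), ← matF_mul (hst _), ← matF_mul (hst _), ← matF_mul (hst _)]
    apply matF_congr
    intro w hw
    have hl := len w hw
    obtain ⟨j, rfl⟩ : ∃ j, i = j + 1 := ⟨i - 1, by omega⟩
    obtain ⟨p, a, b, c, z, rfl, hp⟩ := exists_split₃ (i := j) (w := w) (by omega)
    rw [mem_allPaths] at hw
    obtain ⟨S', hw⟩ := hw
    obtain ⟨h1, h2, h3⟩ := mem_split₃ hw
    exact braid_word hx hp h1 h2 h3
  · intro h1n
    simp only [hmat]
    rw [← matF_mul (hst _), ← matF_mul (hst _), ← matF_mul (hst _), ← matF_mul (hst _),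
      ← matF_mul (hst _), ← matF_mul (hst _)]
    apply matF_congr
    intro w hw
    have hl := len w hw
    obtain ⟨p, a, b, z, rfl, hp⟩ := exists_split₂ (i := 0) (w := w) (by omega)
    rw [List.length_eq_zero_iff] at hp
    subst hp
    rw [mem_allPaths] at hw
    obtain ⟨S', hw⟩ := hw
    have hab := (mem_split₂ hw).1
    have e0 : ∀ r : K, op v m 0 (Finsupp.single ([] ++ a :: b :: z) r) =
        r • (xK v m a • Finsupp.single ([] ++ a :: b :: z) 1) := by
      intro r
      have := Xop_append (x := xK v m) (i := 0) (p := []) (z := b :: z) (a := a) rfl r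
      rw [Finsupp.smul_single, Finsupp.smul_single, smul_eq_mul, smul_eq_mul, mul_one]
      exact this
    have e1 : op v m 1 (op v m 0 (op v m 1 (Finsupp.single ([] ++ a :: b :: z) 1))) =
        xK v m b • Finsupp.single ([] ++ a :: b :: z) 1 := by
      have h := TXT_word hx (i := 0) (p := []) (z := z) rfl hab
      have h2 := Xop_append (x := xK v m) (i := 1) (p := [a]) (z := z) (a := b) rfl 1
      rw [Finsupp.smul_single, smul_eq_mul, mul_one]
      rw [one_mul] at h2
      exact h.trans h2
    simp only [Module.End.mul_apply]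
    rw [e0, one_smul, e1, map_smul, map_smul, map_smul, map_smul, e1, e0, one_smul, smul_comm]
  · intro i j hij hj
    simp only [hmat]
    rw [← matF_mul (hst _), ← matF_mul (hst _)]
    apply matF_congr
    intro w hw
    have hl := len w hw
    obtain ⟨j, rfl⟩ : ∃ k, j = k + 1 := ⟨j - 1, by omega⟩
    rw [Module.End.mul_apply, Module.End.mul_apply]
    cases i with
    | zero => exact Xop_comm_word (by omega) (by omega)
    | succ i => exact comm_word (by omega) (by omega)
  · intro l hl
    exact (matF_prod (op v m) l fun i _ => hst i).2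

end Pool.Agent.helper27.PC
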