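import Pool.Agent.helper64.PC.SpecE

set_option autoImplicit false

namespace Pool.Agent.PC

open Pool.Agent.PB

theorem BFX (hCPT : CPT_stmt) (hFNB : FNB_stmt) (hTRB : TRB_stmt) : BFX_stmt := by
  intro G
  have hfin : (ter G).Finite := (hFNB 3).subset fun g hg => hg.1
  have hch : ∀ g : Gate, ∃ b : ℕ, g ∈ ter G → InCl (upTo G b) g.2 := by
    intro g
    by_cases hg : g ∈ ter G
    · obtain ⟨s, hs⟩ := hg.2
      obtain ⟨b, hb⟩ := hCPT G _ _ _ hs
      exact ⟨b, fun _ => ⟨s, hb⟩⟩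
    · exact ⟨0, fun h => absurd h hg⟩
  choose t ht using hch
  refine ⟨∑ g ∈ hfin.toFinset, t g, ?_⟩
  exact hTRB (upTo G (∑ g ∈ hfin.toFinset, t g)) (ter G) hfin fun g hg => by
    obtain ⟨s, hs⟩ := ht g hg
    exact ⟨s, Size.mono_basis (upTo_mono (Finset.single_le_sum (f := t) (fun i _ => Nat.zero_le _)
      (hfin.mem_toFinset.2 hg))) hs⟩

end Pool.Agent.PC
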