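import Pool.Agent.helper27.PC.Stmt

/-!
# PC project: canonical anticommutation relations and the commutator of ribbon operators
-/

namespace Pool.Agent.helper27.PC

open Module Finset

section car

variable {R : Type*} [CommRing R]

/-- sign of the beads before `l` -/
noncomputable def sg (S : St) (l : Lab) : R := (-1) ^ (S.filter fun y => toLex y < toLex l).card

/-- annihilation -/
noncomputable def ann (l : Lab) : Module.End R (St →₀ R) :=
  Finsupp.linearCombination R fun S => if l ∈ S then Finsupp.single (S.erase l) (sg S l) else 0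

/-- creation -/
noncomputable def cre (l : Lab) : Module.End R (St →₀ R) :=
  Finsupp.linearCombination R fun S => if l ∈ S then 0 else Finsupp.single (insert l S) (sg S l)

theorem sg_mul_self (S : St) (l : Lab) : (sg S l : R) * sg S l = 1 := by
  unfold sg; rw [← pow_add, ← two_mul, pow_mul]; simp

theorem sg_insert {S : St} {j i : Lab} (h : j ∉ S) :
    (sg (insert j S) i : R) = (if toLex j < toLex i then -1 else 1) * sg S i := by
  unfold sg
  rw [filter_insert]
  split_ifs with h1
  · rw [card_insert_of_notMem (by simp [h]), pow_succ]; ring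
  · simp

theorem sg_erase {S : St} {j i : Lab} (h : j ∈ S) :
    (sg (S.erase j) i : R) = (if toLex j < toLex i then -1 else 1) * sg S i := by
  have h1 : S = insert j (S.erase j) := (insert_erase h).symm
  have h2 : (sg S i : R) = (if toLex j < toLex i then -1 else 1) * sg (S.erase j) i := by
    conv_lhs => rw [h1]
    exact sg_insert (by simp)
  rw [h2, ← mul_assoc]
  split_ifs <;> simp

theorem ann_single (l : Lab) (S : St) (c : R) :
    ann l (Finsupp.single S c) = if l ∈ S then Finsupp.single (S.erase l) (c * sg S l) else 0 := by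
  unfold ann
  rw [Finsupp.linearCombination_single]
  split_ifs <;> simp

theorem cre_single (l : Lab) (S : St) (c : R) :
    cre l (Finsupp.single S c) = if l ∈ S then 0 else Finsupp.single (insert l S) (c * sg S l) := by
  unfold cre
  rw [Finsupp.linearCombination_single]
  split_ifs <;> simp

theorem fac_swap {i j : Lab} (h : i ≠ j) :
    (if toLex j < toLex i then (-1 : R) else 1) = - (if toLex i < toLex j then (-1 : R) else 1) := by
  have h' : toLex i ≠ toLex j := fun e => h (toLex.injective e)
  rcases lt_or_gt_of_ne h' with h1 | h1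
  · rw [if_neg (not_lt_of_gt h1), if_pos h1]; ring
  · rw [if_pos h1, if_neg (not_lt_of_gt h1)]

theorem ann_ann (i j : Lab) : (ann i * ann j : Module.End R (St →₀ R)) = - (ann j * ann i) := by
  refine Finsupp.lhom_ext' fun S => LinearMap.ext_ring ?_
  simp only [LinearMap.comp_apply, Finsupp.lsingle_apply, LinearMap.neg_apply, Module.End.mul_apply,
    ann_single]
  by_cases hij : i = j
  · subst hij
    split_ifs with h
    · simp [ann_single]
    · simp
  · by_cases hi : i ∈ S <;> by_cases hj : j ∈ S
    · rw [if_pos hj, if_pos hi, ann_single, ann_single, if_pos (mem_erase.2 ⟨hij, hi⟩),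
        if_pos (mem_erase.2 ⟨Ne.symm hij, hj⟩), sg_erase hj, sg_erase hi, fac_swap hij,
        erase_right_comm, ← Finsupp.single_neg]
      congr 1; ring
    · rw [if_neg hj, if_pos hi, ann_single, if_neg (by simp [hj])]; simp
    · rw [if_pos hj, if_neg hi, ann_single, if_neg (by simp [hi])]; simp
    · rw [if_neg hj, if_neg hi]; simp

theorem cre_cre (i j : Lab) : (cre i * cre j : Module.End R (St →₀ R)) = - (cre j * cre i) := by
  refine Finsupp.lhom_ext' fun S => LinearMap.ext_ring ?_
  simp only [LinearMap.comp_apply, Finsupp.lsingle_apply, LinearMap.neg_apply, Module.End.mul_apply,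
    cre_single]
  by_cases hij : i = j
  · subst hij
    split_ifs with h
    · simp
    · simp [cre_single]
  · by_cases hi : i ∈ S <;> by_cases hj : j ∈ S
    · rw [if_pos hj, if_pos hi]; simp
    · rw [if_neg hj, if_pos hi, cre_single, if_pos (by simp [hi])]; simp
    · rw [if_pos hj, if_neg hi, cre_single, if_pos (by simp [hj])]; simp
    · rw [if_neg hj, if_neg hi, cre_single, cre_single, if_neg (by simp [hij, hi]),
        if_neg (by simp [Ne.symm hij, hj]), sg_insert hj, sg_insert hi, fac_swap hij,
        insert_comm, ← Finsupp.single_neg]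
      congr 1; ring

theorem ann_cre_ne {i j : Lab} (hij : i ≠ j) :
    (ann i * cre j : Module.End R (St →₀ R)) = - (cre j * ann i) := by
  refine Finsupp.lhom_ext' fun S => LinearMap.ext_ring ?_
  simp only [LinearMap.comp_apply, Finsupp.lsingle_apply, LinearMap.neg_apply, Module.End.mul_apply,
    cre_single, ann_single]
  by_cases hi : i ∈ S <;> by_cases hj : j ∈ S
  · rw [if_pos hj, if_pos hi, cre_single, if_pos (by simp [Ne.symm hij, hj])]; simp
  · rw [if_neg hj, if_pos hi, ann_single, cre_single, if_pos (by simp [hi]),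
      if_neg (by simp [hj]), sg_insert hj, sg_erase hi, fac_swap hij,
      erase_insert_of_ne (Ne.symm hij), ← Finsupp.single_neg]
    congr 1; ring
  · rw [if_pos hj, if_neg hi]; simp
  · rw [if_neg hj, if_neg hi, ann_single, if_neg (by simp [hij, hi])]; simp

theorem ann_cre_self (i : Lab) :
    (ann i * cre i + cre i * ann i : Module.End R (St →₀ R)) = 1 := by
  refine Finsupp.lhom_ext' fun S => LinearMap.ext_ring ?_
  simp only [LinearMap.comp_apply, Finsupp.lsingle_apply, LinearMap.add_apply, Module.End.mul_apply,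
    cre_single, ann_single, Module.End.one_apply]
  by_cases hi : i ∈ S
  · rw [if_pos hi, if_pos hi, cre_single, if_neg (by simp), sg_erase hi, insert_erase hi]
    simp [sg_mul_self]
  · rw [if_neg hi, if_neg hi, ann_single, if_pos (by simp), sg_insert hi, erase_insert hi]
    simp [sg_mul_self]

theorem CAR_aux {E : Type*} [Ring E] (cj ai cl ak d1 d2 : E) (h1 : ai * cl = d1 - cl * ai)
    (h2 : ak * cj = d2 - cj * ak) (h3 : cj * cl = -(cl * cj)) (h4 : ai * ak = -(ak * ai)) :
    cj * ai * (cl * ak) - cl * ak * (cj * ai) = cj * d1 * ak - cl * d2 * ai := by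
  have e1 : cj * ai * (cl * ak) = cj * d1 * ak - cl * cj * (ak * ai) := by
    calc cj * ai * (cl * ak) = cj * (ai * cl) * ak := by noncomm_ring
      _ = cj * d1 * ak - cj * cl * (ai * ak) := by rw [h1]; noncomm_ring
      _ = _ := by rw [h3, h4]; noncomm_ring
  have e2 : cl * ak * (cj * ai) = cl * d2 * ai - cl * cj * (ak * ai) := by
    calc cl * ak * (cj * ai) = cl * (ak * cj) * ai := by noncomm_ring
      _ = _ := by rw [h2]; noncomm_ring
  rw [e1, e2]; noncomm_ring

theorem ann_cre (i j : Lab) :
    (ann i * cre j : Module.End R (St →₀ R)) = (if i = j then 1 else 0) - cre j * ann i := by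
  by_cases h : i = j
  · subst h
    rw [if_pos rfl, ← ann_cre_self i]
    refine LinearMap.ext fun u => ?_
    simp only [LinearMap.sub_apply, LinearMap.add_apply, add_sub_cancel_right]
  · rw [if_neg h, ann_cre_ne h]
    refine LinearMap.ext fun u => ?_
    simp only [LinearMap.sub_apply, LinearMap.neg_apply, LinearMap.zero_apply, zero_sub]

/-- the elementary operators satisfy the relations of `gl` -/
theorem E_comm (i j k l : Lab) :
    (cre j * ann i * (cre l * ann k) - cre l * ann k * (cre j * ann i) : Module.End R (St →₀ R)) =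
      (if i = l then cre j * ann k else 0) - (if k = j then cre l * ann i else 0) := by
  have h := CAR_aux (E := Module.End R (St →₀ R)) (cre j) (ann i) (cre l) (ann k) _ _
    (ann_cre i l) (ann_cre k j) (cre_cre j l) (ann_ann i k)
  rw [h]
  congr 1
  · split_ifs <;> simp
  · split_ifs <;> simp

/-- the bead at `i` goes to `j` -/
noncomputable def EE (R : Type*) [CommRing R] (i j : Lab) : Module.End R (St →₀ R) := cre j * ann i

theorem EE_comm (i j k l : Lab) :
    EE R i j * EE R k l - EE R k l * EE R i j =
      (if i = l then EE R k j else 0) - (if k = j then EE R i l else 0) := E_comm i j k l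

theorem lex_iff (y l : Lab) : toLex y < toLex l ↔ y.1 < l.1 ∨ (y.1 = l.1 ∧ y.2 < l.2) := by
  rw [Prod.Lex.lt_iff]; rfl

theorem sg_move {S : St} {l : Lab} {a : ℕ} (h : l ∈ S) (ha : 1 ≤ a) :
    (sg S l : R) * sg (S.erase l) (up a l) = (-1) ^ cnt S l a := by
  unfold sg cnt
  rw [← pow_add]
  have h1 : (S.erase l).filter (fun y => toLex y < toLex (up a l)) =
      (S.filter fun y => toLex y < toLex l) ∪
        S.filter fun y => y.1 = l.1 ∧ l.2 < y.2 ∧ y.2 < l.2 + a := by
    ext y
    simp only [mem_filter, mem_erase, mem_union, lex_iff, up]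
    constructor
    · rintro ⟨⟨h1, h2⟩, h3⟩
      rcases h3 with h3 | ⟨h3, h4⟩
      · exact Or.inl ⟨h2, Or.inl h3⟩
      · rcases lt_trichotomy y.2 l.2 with h5 | h5 | h5
        · exact Or.inl ⟨h2, Or.inr ⟨h3, h5⟩⟩
        · exact absurd (Prod.ext h3 h5) h1
        · exact Or.inr ⟨h2, h3, h5, h4⟩
    · rintro (⟨h1, h2⟩ | ⟨h1, h2, h3, h4⟩)
      · rcases h2 with h2 | ⟨h2, h3⟩
        · exact ⟨⟨fun e => by subst e; exact lt_irrefl _ h2, h1⟩, Or.inl h2⟩
        · exact ⟨⟨fun e => by subst e; exact lt_irrefl _ h3, h1⟩, Or.inr ⟨h2, by omega⟩⟩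
      · exact ⟨⟨fun e => by subst e; exact lt_irrefl _ h3, h1⟩, Or.inr ⟨h2, h4⟩⟩
  have h2 : Disjoint (S.filter fun y => toLex y < toLex l)
      (S.filter fun y => y.1 = l.1 ∧ l.2 < y.2 ∧ y.2 < l.2 + a) := by
    rw [Finset.disjoint_left]
    intro y hy hy'
    simp only [mem_filter, lex_iff] at hy hy'
    rcases hy.2 with h3 | ⟨h3, h4⟩
    · rw [hy'.2.1] at h3; exact lt_irrefl _ h3
    · omega
  rw [h1, card_union_of_disjoint h2, ← add_assoc, ← two_mul, pow_add, pow_mul]
  simp

theorem cre_ann_single {S : St} {l : Lab} {a : ℕ} (ha : 1 ≤ a) :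
    EE R l (up a l) (Finsupp.single S (1 : R)) =
      if l ∈ addable a S then Finsupp.single (move a S l) ((-1) ^ cnt S l a) else 0 := by
  have hne : up a l ≠ l := fun e => by
    have := congrArg Prod.snd e
    simp only [up] at this
    omega
  unfold EE
  rw [Module.End.mul_apply, ann_single]
  unfold addable
  by_cases h : l ∈ S
  · rw [if_pos h, cre_single, one_mul]
    by_cases h2 : up a l ∈ S
    · rw [if_pos (mem_erase.2 ⟨hne, h2⟩), if_neg (by simp [h2])]
    · rw [if_neg (by simp [h2]), if_pos (by simp [h, h2]), sg_move h ha]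
      rfl
  · rw [if_neg h, map_zero, if_neg (by simp [h])]

theorem Rib_single (w : Lab → R) (a : ℕ) (S : St) :
    Rib w a (Finsupp.single S 1) =
      ∑ l ∈ addable a S, Finsupp.single (move a S l) ((-1) ^ cnt S l a * w l) := by
  unfold Rib
  rw [Finsupp.linearCombination_single, one_smul]

theorem Rib_eq_sum (w : Lab → R) {a : ℕ} (ha : 1 ≤ a) {S : St} {L : Finset Lab} (hL : S ⊆ L) :
    Rib w a (Finsupp.single S 1) = ∑ l ∈ L, w l • EE R l (up a l) (Finsupp.single S (1 : R)) := by
  rw [Rib_single]
  have h1 : ∀ l ∈ L, w l • EE R l (up a l) (Finsupp.single S (1 : R)) =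
      if l ∈ addable a S then Finsupp.single (move a S l) ((-1) ^ cnt S l a * w l) else 0 := by
    intro l _
    rw [cre_ann_single ha]
    split_ifs
    · rw [Finsupp.smul_single, smul_eq_mul, mul_comm]
    · simp
  rw [sum_congr rfl h1, ← sum_filter]
  apply sum_congr _ fun _ _ => rfl
  ext l
  simp only [mem_filter, addable]
  constructor
  · intro h; exact ⟨hL h.1, h⟩
  · intro h; exact h.2

/-- the big box -/
def box (N : ℕ) : Finset Lab := Finset.univ ×ˢ Finset.range N

theorem mem_box {N : ℕ} {l : Lab} : l ∈ box N ↔ l.2 < N := by simp [box]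

theorem exists_box (S : St) : ∃ N, S ⊆ box N :=
  ⟨S.sup Prod.snd + 1, fun l hl => mem_box.2 (Nat.lt_succ_of_le (Finset.le_sup (f := Prod.snd) hl))⟩

theorem move_subset {N a : ℕ} {S : St} {l : Lab} (h : S ⊆ box N) (hl : l ∈ S) :
    move a S l ⊆ box (N + a) := by
  intro y hy
  unfold move at hy
  rw [mem_insert, mem_erase] at hy
  rw [mem_box]
  rcases hy with rfl | ⟨_, hy⟩
  · have := mem_box.1 (h hl)
    simp only [up]; omega
  · have := mem_box.1 (h hy)
    omega

theorem CAR_gen (x y : Lab → R) (a b : ℕ) (ha : 1 ≤ a) (hb : 1 ≤ b) :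
    Rib x a ∘ₗ Rib y b - Rib y b ∘ₗ Rib x a =
      Rib (fun l => x (up b l) * y l - y (up a l) * x l) (a + b) := by
  refine Finsupp.lhom_ext' fun S => LinearMap.ext_ring ?_
  simp only [LinearMap.comp_apply, LinearMap.sub_apply, Finsupp.lsingle_apply]
  obtain ⟨N, hN⟩ := exists_box S
  have key : ∀ (x y : Lab → R) (a b : ℕ), 1 ≤ a → 1 ≤ b → ∀ M, N + b ≤ M →
      Rib x a (Rib y b (Finsupp.single S 1)) =
      ∑ l ∈ box M, ∑ k ∈ box M, (x l * y k) •
        (EE R l (up a l) * EE R k (up b k)) (Finsupp.single S (1 : R)) := by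
    intro x y a b ha hb M hM
    have h1 : Rib x a (Rib y b (Finsupp.single S 1)) =
        ∑ l ∈ box M, x l • EE R l (up a l) (Rib y b (Finsupp.single S 1)) := by
      rw [Rib_single y b S, map_sum]
      simp_rw [map_sum, smul_sum]
      rw [sum_comm]
      apply sum_congr rfl
      intro k hk
      have h2 : Finsupp.single (move b S k) ((-1) ^ cnt S k b * y k) =
          ((-1) ^ cnt S k b * y k) • Finsupp.single (move b S k) (1 : R) := by
        rw [Finsupp.smul_single, smul_eq_mul, mul_one]
      rw [h2, map_smul, Rib_eq_sum x ha (L := box M), smul_sum]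
      · apply sum_congr rfl
        intro l _
        rw [map_smul, smul_comm]
      · refine (move_subset hN (mem_filter.1 hk).1).trans ?_
        intro z hz
        rw [mem_box] at hz ⊢
        omega
    rw [h1, Rib_eq_sum y hb (L := box M) (hN.trans fun z hz => by rw [mem_box] at hz ⊢; omega)]
    apply sum_congr rfl
    intro l _
    rw [map_sum, smul_sum]
    apply sum_congr rfl
    intro k _
    rw [map_smul, smul_smul, ← Module.End.mul_apply]
  set M := N + a + b with hM
  rw [key x y a b ha hb M (by omega), key y x b a hb ha M (by omega),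
    Rib_eq_sum _ (by omega : 1 ≤ a + b) (hN.trans fun z hz => by rw [mem_box] at hz ⊢; omega :
      S ⊆ box M)]
  rw [sum_comm (s := box M) (t := box M) (f := fun l k => (y l * x k) •
        (EE R l (up b l) * EE R k (up a k)) (Finsupp.single S (1 : R)))]
  rw [← sum_sub_distrib]
  have h3 : ∀ l ∈ box M, (∑ k ∈ box M, (x l * y k) •
        (EE R l (up a l) * EE R k (up b k)) (Finsupp.single S (1 : R))) -
      (∑ k ∈ box M, (y k * x l) •
        (EE R k (up b k) * EE R l (up a l)) (Finsupp.single S (1 : R))) =
      ∑ k ∈ box M, ((if l = up b k then (x l * y k) • EE R k (up a l) (Finsupp.single S (1 : R))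
          else 0) - (if k = up a l then (x l * y k) • EE R l (up b k) (Finsupp.single S (1 : R))
          else 0)) := by
    intro l _
    rw [← sum_sub_distrib]
    apply sum_congr rfl
    intro k _
    rw [mul_comm (y k) (x l), ← smul_sub, ← LinearMap.sub_apply, EE_comm]
    split_ifs <;> simp [smul_sub]
  rw [sum_congr rfl h3]
  simp_rw [sum_sub_distrib]
  have h4 : ∑ l ∈ box M, ∑ k ∈ box M, (if l = up b k then
        (x l * y k) • EE R k (up a l) (Finsupp.single S (1 : R)) else 0) =
      ∑ k ∈ box M, (x (up b k) * y k) • EE R k (up (a + b) k) (Finsupp.single S (1 : R)) := by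
    rw [sum_comm]
    apply sum_congr rfl
    intro k hk
    rw [sum_ite_eq']
    have e : up a (up b k) = up (a + b) k := by
      simp only [up]; ext <;> simp; omega
    split_ifs with h5
    · rw [e]
    · have : k ∉ S := fun h6 => h5 (mem_box.2 (by
        have := mem_box.1 (hN h6); simp only [up]; omega))
      unfold EE
      rw [Module.End.mul_apply, ann_single, if_neg this]
      simp
  have h5 : ∑ l ∈ box M, ∑ k ∈ box M, (if k = up a l then
        (x l * y k) • EE R l (up b k) (Finsupp.single S (1 : R)) else 0) =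
      ∑ l ∈ box M, (y (up a l) * x l) • EE R l (up (a + b) l) (Finsupp.single S (1 : R)) := by
    apply sum_congr rfl
    intro l hl
    rw [sum_ite_eq']
    have e : up b (up a l) = up (a + b) l := by
      simp only [up]; ext <;> simp; omega
    split_ifs with h5
    · rw [e, mul_comm]
    · have : l ∉ S := fun h6 => h5 (mem_box.2 (by
        have := mem_box.1 (hN h6); simp only [up]; omega))
      unfold EE
      rw [Module.End.mul_apply, ann_single, if_neg this]
      simp
  rw [h4, h5, ← sum_sub_distrib]
  apply sum_congr rfl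
  intro l _
  rw [← sub_smul]

theorem CAR : CAR_stmt := fun _ _ x y a b ha hb => CAR_gen x y a b ha hb

end car

end Pool.Agent.helper27.PC
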