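import Pool.Agent.helper64.PC.SpecE

set_option autoImplicit false

namespace Pool.Agent.PC

open Pool.Agent.PB

theorem CPT_prog (G : Set Gate) (n : ℕ) (l : List (BF n)) (hl : Prog G n l) :
    ∃ b, Prog (upTo G b) n l := by
  induction hl with
  | nil => exact ⟨0, Prog.nil⟩
  | step l g a _ hg ha ih =>
    obtain ⟨b, hb⟩ := ih
    refine ⟨max b g.1, Prog.step l g a (Prog.mono_basis (upTo_mono (le_max_left _ _)) hb)
      ⟨hg, le_max_right _ _⟩ ha⟩

theorem CPT : CPT_stmt := by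
  intro G n f s hs
  obtain ⟨l, h1, h2, h3⟩ := hs
  obtain ⟨b, hb⟩ := CPT_prog G n l h1
  exact ⟨b, l, hb, h2, h3⟩

end Pool.Agent.PC
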