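import Pool.Agent.helper64.PC.SpecV

set_option autoImplicit false

namespace Pool.Agent.PC

open Pool.Agent.PB

theorem DUM (hDUA : DUA_stmt) : DUM_stmt := by
  obtain ⟨_, _, _, hG, _, _, hprop⟩ := hDUA
  have h1 : ∀ (G : Set Gate) (r : ℕ), dualB (upTo G r) = upTo (dualB G) r := fun G r => rfl
  have h2 : dualB monG = monG := by
    ext g
    exact (hprop g.1 g.2).1
  refine ⟨fun G r n f s => ?_, fun r n f s => ?_⟩
  · rw [← h1]
    exact hG (upTo G r) n f s
  · have h := hG (upTo monG r) n f s
    rw [h1, h2] at h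
    exact h

end Pool.Agent.PC
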