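import Mathlib

/-!
# Positive conjugacy classes of `W(B_n)` (MP_405bd9_al): definitions
-/

namespace Pool.Agent.helper27.PC

open Module Polynomial

/-! ## The Weyl group `W(B_n)` as the group of signed permutations -/

/-- change of sign on the signed indices; `(i, true)` stands for `i + 1` and `(i, false)` for `-(i + 1)` -/
def neg (n : ℕ) : Equiv.Perm (Fin n × Bool) := (Equiv.refl (Fin n)).prodCongr Equiv.boolNot

/-- `W(B_n)`: the permutations of the signed indices that commute with the change of sign -/
abbrev W (n : ℕ) : Subgroup (Equiv.Perm (Fin n × Bool)) := Subgroup.centralizer {neg n}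

theorem mem_W {n : ℕ} {σ : Equiv.Perm (Fin n × Bool)} :
    σ ∈ W n ↔ ∀ x, σ (x.1, !x.2) = ((σ x).1, !(σ x).2) := by
  rw [Subgroup.mem_centralizer_singleton_iff]
  constructor
  · intro h x
    have := congrArg (fun τ : Equiv.Perm (Fin n × Bool) => τ x) h
    simp only [Equiv.Perm.mul_apply] at this
    simpa [neg, Equiv.prodCongr_apply, Prod.map] using this
  · intro h
    ext x : 1
    simp only [Equiv.Perm.mul_apply]
    have := h x
    simpa [neg, Equiv.prodCongr_apply, Prod.map] using this

/-- the permutation part of the generators: sign change of the first coordinate (`i = 0`), transposition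
of the coordinates `i - 1` and `i` (`i ≥ 1`) -/
def genPerm (n : ℕ) (i : Fin n) : Equiv.Perm (Fin n × Bool) :=
  if i.val = 0 then Equiv.swap (i, true) (i, false)
  else (Equiv.swap (⟨i.val - 1, lt_of_le_of_lt (Nat.sub_le _ _) i.isLt⟩ : Fin n) i).prodCongr
    (Equiv.refl Bool)

theorem genPerm_mem (n : ℕ) (i : Fin n) : genPerm n i ∈ W n := by
  rw [mem_W]
  rintro ⟨j, b⟩
  unfold genPerm
  split_ifs with h
  · by_cases hj : j = i
    · subst hj
      cases b <;> simp [Equiv.swap_apply_left, Equiv.swap_apply_right]
    · rw [Equiv.swap_apply_of_ne_of_ne, Equiv.swap_apply_of_ne_of_ne] <;>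
        simp [Prod.ext_iff, hj]
  · simp [Equiv.prodCongr_apply, Prod.map]

/-- the simple reflections of `W(B_n)` -/
def gen (n : ℕ) (i : Fin n) : W n := ⟨genPerm n i, genPerm_mem n i⟩

/-- length with respect to the simple reflections -/
noncomputable def len {n : ℕ} (w : W n) : ℕ :=
  sInf {k | ∃ l : List (Fin n), l.length = k ∧ (l.map (gen n)).prod = w}

/-- `w` has minimal length in its conjugacy class -/
def IsMinLen {n : ℕ} (w : W n) : Prop := ∀ g : W n, len w ≤ len (g * w * g⁻¹)

/-! ## The Iwahori-Hecke algebra and the polynomials `N^w` -/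

/-- `ℤ[v, v⁻¹]` -/
abbrev A := LaurentPolynomial ℤ

/-- the variable `v` -/
noncomputable def v : A := LaurentPolynomial.T 1

/-- `v⁻¹` -/
noncomputable def vi : A := LaurentPolynomial.T (-1)

/-- `H` with its basis `T` is the Iwahori-Hecke algebra of `W(B_n)` -/
structure IsHecke (n : ℕ) {H : Type*} [Ring H] [Algebra A H] (T : Basis (W n) A H) : Prop where
  quad : ∀ i : Fin n, (T (gen n i) + algebraMap A H vi) * (T (gen n i) - algebraMap A H v) = 0
  mul : ∀ w w' : W n, len (w * w') = len w + len w' → T w * T w' = T (w * w')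

/-- `N^w`: the trace of `h ↦ v^{2|w|} T_w h T_{w⁻¹}` -/
noncomputable def N {n : ℕ} {H : Type*} [Ring H] [Algebra A H] (T : Basis (W n) A H) (w : W n) : A :=
  LinearMap.trace A H
    (LinearMap.mulLeft A (v ^ (2 * len w) • T w) ∘ₗ LinearMap.mulRight A (T w⁻¹))

/-- the Laurent polynomial lies in `ℕ[v²]` -/
def NatPoly (p : A) : Prop :=
  ∀ k : ℤ, 0 ≤ p.coeff k ∧ (p.coeff k ≠ 0 → ∃ j : ℕ, k = 2 * (j : ℤ))

/-- the conjugacy class of `w` is positive: `N^{w'} ∈ ℕ[v²]` for an element `w'` of minimal length -/
def ClassPositive {n : ℕ} {H : Type*} [Ring H] [Algebra A H] (T : Basis (W n) A H) (w : W n) : Prop :=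
  ∃ w' : W n, IsConj w w' ∧ IsMinLen w' ∧ NatPoly (N T w')

/-! ## The standard elements -/

/-- generator with a natural number as index -/
def g (n i : ℕ) : W n := if h : i < n then gen n ⟨i, h⟩ else 1

/-- reduced word of the negative cycle `k → k+1 → ... → k+a-1 → -k` (coordinates numbered from `0`) -/
def blockWord (k a : ℕ) : List ℕ := (List.range (k + 1)).reverse ++ List.range' 1 (k + a - 1)

/-- word for the product of negative cycles of lengths `l` on consecutive coordinates, starting at `k` -/
def stdWord : ℕ → List ℕ → List ℕ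
  | _, [] => []
  | k, a :: l => blockWord k a ++ stdWord (k + a) l

/-- the element of `W(B_n)` with negative cycle type `l` -/
def std (n : ℕ) (l : List ℕ) : W n := ((stdWord 0 l).map (g n)).prod

/-- `l` is a partition of `n`, smallest part first -/
def Part (n : ℕ) (l : List ℕ) : Prop := (∀ a ∈ l, 1 ≤ a) ∧ l.Pairwise (· ≤ ·) ∧ l.sum = n

/-! ## States (pairs of partitions as bead configurations), paths, ribbons -/

/-- a position: component and place of a bead; also the label of the box that is added when the bead
moves one place -/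
abbrev Lab := Bool × ℕ

/-- a state: the set of beads -/
abbrev St := Finset Lab

/-- the place `a` steps further -/
def up (a : ℕ) (l : Lab) : Lab := (l.1, l.2 + a)

/-- move the bead at `l` by `a` places -/
def move (a : ℕ) (S : St) (l : Lab) : St := insert (up a l) (S.erase l)

/-- number of beads strictly between `l` and `up a l` -/
def cnt (S : St) (l : Lab) (a : ℕ) : ℕ :=
  (S.filter fun y => y.1 = l.1 ∧ l.2 < y.2 ∧ y.2 < l.2 + a).card

/-- beads that can move by `a` places -/
def addable (a : ℕ) (S : St) : Finset Lab := S.filter fun l => up a l ∉ S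

/-- the empty pair of partitions, with `m` beads in both components -/
def vac (m : ℕ) : St := Finset.univ ×ˢ Finset.range m

/-- all words of `n` one-step moves from `S` to `S'` -/
def paths : ℕ → St → St → Finset (List Lab)
  | 0, S, S' => if S = S' then {[]} else ∅
  | n + 1, S, S' => (addable 1 S).biUnion fun l => (paths n (move 1 S l) S').image (List.cons l)

/-- the states that can be reached from `S` by `n` one-step moves -/
def ends : ℕ → St → Finset St
  | 0, S => {S}
  | n + 1, S => (addable 1 S).biUnion fun l => ends n (move 1 S l)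

/-- adding an `a`-ribbon, with weight `w l` (`l` the label of the first box) and sign `(-1)^{height}` -/
noncomputable def Rib {R : Type*} [CommRing R] (w : Lab → R) (a : ℕ) : (St →₀ R) →ₗ[R] (St →₀ R) :=
  Finsupp.linearCombination R fun S =>
    ∑ l ∈ addable a S, Finsupp.single (move a S l) ((-1) ^ cnt S l a * w l)

/-- the weight of an `a`-ribbon added to a state with `k` boxes; `m` is the number of beads -/
noncomputable def wq (m k a : ℕ) (l : Lab) : ℤ[X] :=
  if l.1 then X ^ (k + a + l.2 + 1 - m) else - X ^ (k + a + l.2 - m)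

/-- adding ribbons of sizes `l` to a vector of states with `k` boxes -/
noncomputable def fock (m : ℕ) : ℕ → List ℕ → (St →₀ ℤ[X]) → (St →₀ ℤ[X])
  | _, [], u => u
  | k, a :: l, u => fock m (k + a) l (Rib (wq m k a) a u)

/-- the vector of the normalised character values of the class of negative cycle type `l` -/
noncomputable def vec (m : ℕ) (l : List ℕ) : St →₀ ℤ[X] := fock m 0 l (Finsupp.single (vac m) 1)

/-- the polynomial `N_C(q)`, `q = v²` -/
noncomputable def P (m : ℕ) (l : List ℕ) : ℤ[X] := (vec m l).sum fun _ p => p ^ 2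

/-! ## Seminormal operators on words -/

section ops

variable {K : Type*} [Field K]

/-- the value of the Jucys-Murphy element on a box -/
noncomputable def xK (v : K) (m : ℕ) (l : Lab) : K :=
  (if l.1 then v else - v⁻¹) * v ^ (2 * ((l.2 : ℤ) + 1 - m))

/-- diagonal coefficient -/
noncomputable def cA (v : K) (x : Lab → K) (a b : Lab) : K := (v - v⁻¹) / (1 - x a / x b)

/-- off-diagonal coefficient -/
noncomputable def cB (v : K) (x : Lab → K) (a b : Lab) : K :=
  if b = up 1 a then 0 else cA v x a b + v⁻¹

/-- action of `T_i` on the word `w` (the letters number `i` and `i + 1`, counted from `0`, are exchanged) -/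
noncomputable def tw (v : K) (x : Lab → K) : ℕ → List Lab → (List Lab →₀ K)
  | 0, a :: b :: z => Finsupp.single (a :: b :: z) (cA v x a b) + Finsupp.single (b :: a :: z) (cB v x a b)
  | i + 1, a :: z => Finsupp.mapDomain (List.cons a) (tw v x i z)
  | _, _ => 0

/-- the operator `T_i` -/
noncomputable def Top (v : K) (x : Lab → K) (i : ℕ) : (List Lab →₀ K) →ₗ[K] (List Lab →₀ K) :=
  Finsupp.linearCombination K (tw v x i)

/-- the Jucys-Murphy operator: the word `w` is multiplied by the value of its letter number `i` -/
noncomputable def Xop (x : Lab → K) (i : ℕ) : (List Lab →₀ K) →ₗ[K] (List Lab →₀ K) :=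
  Finsupp.linearCombination K fun w => Finsupp.single w ((w[i]?).elim 0 x)

/-- the operator of the generator number `i` of `W(B_n)`: `X_0` for `i = 0`, `T_{i-1}` for `i ≥ 1` -/
noncomputable def op (v : K) (m : ℕ) : ℕ → Module.End K (List Lab →₀ K)
  | 0 => Xop (xK v m) 0
  | i + 1 => Top v (xK v m) i

/-- the operator of a word in the generators -/
noncomputable def opW (v : K) (m : ℕ) (l : List ℕ) : Module.End K (List Lab →₀ K) :=
  (l.map (op v m)).prod

/-- trace on the words from `S` to `S'` -/
noncomputable def trP (n : ℕ) (S S' : St) (φ : Module.End K (List Lab →₀ K)) : K :=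
  ∑ w ∈ paths n S S', φ (Finsupp.single w 1) w

/-- `v` is generic: no power of `v` equals `-1` and no nontrivial power equals `1` -/
def Generic (v : K) : Prop := v ≠ 0 ∧ (∀ k : ℤ, v ^ k ≠ -1) ∧ ∀ k : ℤ, k ≠ 0 → v ^ k ≠ 1

end ops

/-- the relations of the Hecke algebra of type `B_n` (`c` stands for `v - v⁻¹`) -/
structure RelB {K R : Type*} [CommRing K] [Ring R] [Algebra K R] (c : K) (n : ℕ) (τ : ℕ → R) : Prop where
  quad : ∀ i < n, τ i * τ i = c • τ i + 1
  braid : ∀ i, 1 ≤ i → i + 1 < n → τ i * τ (i + 1) * τ i = τ (i + 1) * τ i * τ (i + 1)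
  braid0 : 1 < n → τ 0 * τ 1 * τ 0 * τ 1 = τ 1 * τ 0 * τ 1 * τ 0
  comm : ∀ i j, i + 1 < j → j < n → τ i * τ j = τ j * τ i

/-- words from `S` with `n` letters -/
def allPaths (n : ℕ) (S : St) : Finset (List Lab) := (ends n S).biUnion fun S' => paths n S S'

/-- matrix of an operator with respect to the words from `S` with `n` letters -/
noncomputable def mat {K : Type*} [Field K] (n : ℕ) (S : St) (φ : Module.End K (List Lab →₀ K)) :
    Matrix (allPaths n S) (allPaths n S) K := fun w w' => φ (Finsupp.single w'.1 1) w.1

end Pool.Agent.helper27.PC
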