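import Pool.Agent.helper64.PC.SpecE

set_option autoImplicit false

namespace Pool.Agent.PC

open Pool.Agent.PB

theorem FNB : FNB_stmt := by
  intro b
  have hfin : Finite (Σ r : Fin (b + 1), BF (r : ℕ)) := inferInstance
  refine (Set.finite_range (fun z : (Σ r : Fin (b + 1), BF (r : ℕ)) => (⟨z.1, z.2⟩ : Gate))).subset ?_
  rintro ⟨r, f⟩ hr
  have hr' : r ≤ b := hr
  exact ⟨⟨⟨r, by omega⟩, f⟩, rfl⟩

end Pool.Agent.PC
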