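import Pool.Agent.helper26.PC.NF
import Pool.Agent.helper26.PC.GEN
import Pool.Agent.helper26.PC.HREL
import Pool.Agent.helper46.PC.TW
import Pool.Agent.helper46.PC.CNT
import Pool.Agent.helper80.PC.DIM
import Pool.Agent.helper93.PC.SD
import Pool.Agent.helper15.PC.CARD
import Pool.Agent.helper27.PC.REP

/-!
# Positive classes of `W(B_n)`: assembly of the positivity theorem
-/

namespace Pool.Agent.helper27.PC

open Module Polynomial

theorem LENu : LEN_stmt := LEN GEN

theorem TRu : TR_stmt := TR GEN TW CARD (HREL TW) DIM CNT REP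

theorem NFu : NF_stmt := NF TRu Pool.Agent.helper31.PC.CH LENu TW

/-- `w` maps the coordinate number `i` (counted from `0`) to the next one, for `k ≤ i < k + a - 1`, and the
coordinate number `k + a - 1` to minus the coordinate number `k` -/
def NegCycle {n : ℕ} (w : W n) (k a : ℕ) : Prop :=
  k + a ≤ n ∧ ∀ x : Fin n × Bool, k ≤ x.1.val → x.1.val < k + a →
    if x.1.val + 1 < k + a then ((w.1 x).1.val = x.1.val + 1 ∧ (w.1 x).2 = x.2)
    else ((w.1 x).1.val = k ∧ (w.1 x).2 = !x.2)

/-- from the coordinate number `k` on, `w` is the product of negative cycles of lengths `l` on consecutive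
coordinates (and there are no coordinates left) -/
def NegBlocks {n : ℕ} (w : W n) : ℕ → List ℕ → Prop
  | k, [] => k = n
  | k, a :: l => NegCycle w k a ∧ NegBlocks w (k + a) l

theorem negBlocks_unique {n : ℕ} (w : W n) : ∀ (l : List ℕ) (k : ℕ), NegBlocks w k l →
    ∀ w' : Equiv.Perm (Fin n × Bool), LEN_Blk w' k l →
    ∀ x : Fin n × Bool, k ≤ x.1.val → w' x = w.1 x := by
  intro l
  induction l with
  | nil =>
    intro k h w' _ x hx
    have h1 : k = n := h
    have := x.1.isLt
    omega
  | cons a l ih =>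
    intro k h w' h' x hx
    obtain ⟨⟨h0, h1⟩, h2⟩ := h
    obtain ⟨g1, g2, g3⟩ := h'
    by_cases hx' : x.1.val < k + a
    · have h3 := h1 x hx hx'
      by_cases hx2 : x.1.val + 1 < k + a
      · rw [if_pos hx2] at h3
        have h4 := g1 x hx hx2
        exact Prod.ext (Fin.ext (by rw [h4.1, h3.1])) (by rw [h4.2, h3.2])
      · rw [if_neg hx2] at h3
        have h4 := g2 x (by omega)
        exact Prod.ext (Fin.ext (by rw [h4.1, h3.1])) (by rw [h4.2, h3.2])
    · exact ih (k + a) h2 w' g3 x (by omega)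

theorem std_coe (n : ℕ) (l : List ℕ) : ((std n l : W n) : Equiv.Perm (Fin n × Bool)) =
    LEN_w n (stdWord 0 l) := rfl

theorem eq_std {n : ℕ} (w : W n) (l : List ℕ) (hl : Part n l) (h : NegBlocks w 0 l) :
    w = std n l := by
  obtain ⟨-, -, hB⟩ := LEN_std (n := n) l hl.1 0 (by have := hl.2.2; omega)
  apply Subtype.ext
  rw [std_coe]
  ext x : 1
  exact (negBlocks_unique w l 0 h _ hB x (Nat.zero_le _)).symm

end Pool.Agent.helper27.PC
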