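import Pool.Agent.helper64.PC.SpecE

set_option autoImplicit false

namespace Pool.Agent.PC

open Pool.Agent.PB

/-- for large `n`: `2 (L + 1) L ^ 20 ≤ n` -/
theorem GRL_lim : ∃ N : ℕ, ∀ n : ℕ, N ≤ n → 2 * (Real.logb 2 n + 1) * Real.logb 2 n ^ 20 ≤ n := by
  have h := (Real.isLittleO_pow_log_id_atTop (n := 21)).def (c := 1 / 2 ^ 23) (by norm_num)
  have h1 := tendsto_natCast_atTop_atTop.eventually h
  rw [Filter.eventually_atTop] at h1
  obtain ⟨N, hN⟩ := h1
  refine ⟨max N 2, fun n hn => ?_⟩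
  have h2 := hN n (le_trans (le_max_left _ _) hn)
  have hn2 : 2 ≤ n := le_trans (le_max_right _ _) hn
  have hn2' : (2 : ℝ) ≤ n := by exact_mod_cast hn2
  have hlog0 : 0 ≤ Real.log n := Real.log_nonneg (by linarith)
  have hlog2 : 1 / 2 ≤ Real.log 2 := by
    have := Real.log_two_gt_d9
    linarith
  rw [Real.norm_of_nonneg (by positivity), id, Real.norm_of_nonneg (by positivity)] at h2
  have hL : Real.logb 2 n ≤ 2 * Real.log n := by
    rw [Real.logb, div_le_iff₀ (by linarith)]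
    nlinarith
  have hL1 : 1 ≤ Real.logb 2 n := by
    rw [Real.le_logb_iff_rpow_le (by norm_num) (by linarith), Real.rpow_one]
    exact hn2'
  have h3 : 2 * (Real.logb 2 n + 1) * Real.logb 2 n ^ 20 ≤ 4 * Real.logb 2 n ^ 21 := by
    have : 0 ≤ Real.logb 2 n ^ 20 := by positivity
    have e : (4 : ℝ) * Real.logb 2 n ^ 21 = (4 * Real.logb 2 n) * Real.logb 2 n ^ 20 := by ring
    rw [e]
    exact mul_le_mul_of_nonneg_right (by linarith) this
  have h4 : Real.logb 2 n ^ 21 ≤ (2 * Real.log n) ^ 21 := pow_le_pow_left₀ (by linarith) hL 21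
  have h5 : (2 * Real.log n) ^ 21 = 2 ^ 21 * Real.log n ^ 21 := by rw [mul_pow]
  rw [h5] at h4
  calc 2 * (Real.logb 2 n + 1) * Real.logb 2 n ^ 20 ≤ 4 * Real.logb 2 n ^ 21 := h3
    _ ≤ 4 * (2 ^ 21 * Real.log n ^ 21) := by linarith
    _ = 2 ^ 23 * Real.log n ^ 21 := by ring
    _ ≤ 2 ^ 23 * (1 / 2 ^ 23 * n) := mul_le_mul_of_nonneg_left h2 (by positivity)
    _ = n := by ring

theorem GRL_big (K : ℕ) (n : ℕ) (hn : 2 ^ K ≤ n) : (K : ℝ) ≤ Real.logb 2 n := by
  have h0 : (0 : ℝ) < n := by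
    have : 0 < n := lt_of_lt_of_le (by positivity) hn
    exact_mod_cast this
  rw [Real.le_logb_iff_rpow_le (by norm_num) h0, Real.rpow_natCast]
  exact_mod_cast hn

theorem GRL : GRL_stmt := by
  intro m hm
  obtain ⟨n₁, hm⟩ := hm
  obtain ⟨N, hN⟩ := GRL_lim
  have hcast : ∀ n : ℕ, ((m n + Nat.log 2 n + 1 : ℕ) : ℝ) ≤ m n + (Real.logb 2 n + 1) := by
    intro n
    have h1 : ((Nat.log 2 n : ℕ) : ℝ) ≤ Real.logb 2 n := Real.natLog_le_logb n 2
    push_cast
    linarith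
  constructor
  · refine ⟨max n₁ (max N 4), fun n hn => ⟨by omega, ?_⟩⟩
    have hn1 : n₁ ≤ n := le_trans (le_max_left _ _) hn
    have hnN : N ≤ n := le_trans (le_trans (le_max_left _ _) (le_max_right _ _)) hn
    have hn4 : 2 ^ 2 ≤ n := le_trans (le_trans (le_max_right _ _) (le_max_right _ _)) hn
    have hL2 : (2 : ℝ) ≤ Real.logb 2 n := by exact_mod_cast GRL_big 2 n hn4
    have h1 := hm n hn1
    have h2 := hN n hnN
    set L := Real.logb 2 n with hL
    have hL19 : 0 ≤ L ^ 19 := by positivity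
    have h3 : ((m n + Nat.log 2 n + 1 : ℕ) : ℝ) * L ^ 19 ≤ (m n + (L + 1)) * L ^ 19 :=
      mul_le_mul_of_nonneg_right (hcast n) hL19
    have h4 : 2 * ((m n : ℝ) * L ^ 19) ≤ n := by
      have h5 : 2 * ((m n : ℝ) * L ^ 19) ≤ L * ((m n : ℝ) * L ^ 19) :=
        mul_le_mul_of_nonneg_right hL2 (by positivity)
      have h6 : L * ((m n : ℝ) * L ^ 19) = (m n : ℝ) * L ^ 20 := by ring
      linarith
    have h5 : 2 * ((L + 1) * L ^ 19) ≤ n := by
      have h6 : 1 * (2 * ((L + 1) * L ^ 19)) ≤ L * (2 * ((L + 1) * L ^ 19)) :=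
        mul_le_mul_of_nonneg_right (by linarith) (by positivity)
      have h7 : L * (2 * ((L + 1) * L ^ 19)) = 2 * (L + 1) * L ^ 20 := by ring
      linarith
    nlinarith
  · intro c
    refine ⟨max n₁ (max N (2 ^ (2 * (c + 2) ^ 19 + c + 2))), fun n hn => ?_⟩
    have hn1 : n₁ ≤ n := le_trans (le_max_left _ _) hn
    have hnN : N ≤ n := le_trans (le_trans (le_max_left _ _) (le_max_right _ _)) hn
    have hnK : 2 ^ (2 * (c + 2) ^ 19 + c + 2) ≤ n :=
      le_trans (le_trans (le_max_right _ _) (le_max_right _ _)) hn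
    have hnpos : 0 < n := lt_of_lt_of_le (by positivity) hnK
    have hn0 : (0 : ℝ) < n := by exact_mod_cast hnpos
    have hcn : 2 ^ (c + 2) ≤ n := le_trans (Nat.pow_le_pow_right (by norm_num) (by omega)) hnK
    have hclog : c + 2 ≤ Nat.log 2 n := Nat.le_log_of_pow_le (by norm_num) hcn
    refine ⟨by omega, ?_⟩
    have hKL := GRL_big _ n hnK
    push_cast at hKL
    have h1 := hm n hn1
    have h2 := hN n hnN
    have hc := hcast n
    set L := Real.logb 2 n with hL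
    have hc0 : (0 : ℝ) ≤ c := Nat.cast_nonneg c
    have hL1 : (1 : ℝ) ≤ L := by
      have : (0 : ℝ) ≤ 2 * ((c : ℝ) + 2) ^ 19 := by positivity
      linarith
    set M : ℝ := ((m n + Nat.log 2 n + 1 : ℕ) : ℝ) with hM
    have hM0 : 0 < M := by
      rw [hM]
      exact_mod_cast Nat.succ_pos _
    have h3 : M * L ^ 20 ≤ 2 * n := by
      have h4 : M * L ^ 20 ≤ (m n + (L + 1)) * L ^ 20 :=
        mul_le_mul_of_nonneg_right hc (by positivity)
      have h5 : (m n + (L + 1)) * L ^ 20 = m n * L ^ 20 + (2 * (L + 1) * L ^ 20) / 2 := by ring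
      rw [h5] at h4
      linarith
    have h4 : (((c : ℝ) + 2) * L) ^ 19 ≤ n / M := by
      rw [le_div_iff₀ hM0, mul_pow]
      have h5 : 2 * ((c : ℝ) + 2) ^ 19 ≤ L := by linarith
      have h6 : 2 * (((c : ℝ) + 2) ^ 19 * L ^ 19 * M) ≤ M * L ^ 20 := by
        have h7 : (2 * ((c : ℝ) + 2) ^ 19) * (L ^ 19 * M) ≤ L * (L ^ 19 * M) :=
          mul_le_mul_of_nonneg_right h5 (by positivity)
        have e1 : 2 * (((c : ℝ) + 2) ^ 19 * L ^ 19 * M) =
          (2 * ((c : ℝ) + 2) ^ 19) * (L ^ 19 * M) := by ring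
        have e2 : L * (L ^ 19 * M) = M * L ^ 20 := by ring
        rw [e1, ← e2]
        exact h7
      linarith
    have h5 : ((c : ℝ) + 2) * L ≤ (n / M) ^ (1 / 19 : ℝ) := by
      have h6 := Real.rpow_le_rpow (by positivity) h4 (by norm_num : (0 : ℝ) ≤ 1 / 19)
      have h7 : ((((c : ℝ) + 2) * L) ^ 19) ^ (1 / 19 : ℝ) = ((c : ℝ) + 2) * L := by
        rw [← Real.rpow_natCast, ← Real.rpow_mul (by positivity)]
        have : ((19 : ℕ) : ℝ) * (1 / 19) = 1 := by norm_num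
        rw [this, Real.rpow_one]
      rwa [h7] at h6
    have h6 : (2 : ℝ) ^ (((c : ℝ) + 2) * L) ≤ 2 ^ ((n / M) ^ (1 / 19 : ℝ)) :=
      Real.rpow_le_rpow_of_exponent_le (by norm_num) h5
    have h7 : (2 : ℝ) ^ (((c : ℝ) + 2) * L) = (n : ℝ) ^ (c + 2) := by
      rw [mul_comm, Real.rpow_mul (by norm_num), hL, Real.rpow_logb (by norm_num) (by norm_num) hn0]
      have : (c : ℝ) + 2 = ((c + 2 : ℕ) : ℝ) := by push_cast; ring
      rw [this, Real.rpow_natCast]
    rw [h7] at h6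
    refine lt_of_lt_of_le ?_ h6
    have h8 : n ^ c + c < n ^ (c + 2) := by
      have h9 : 2 ≤ n := by
        refine le_trans ?_ hcn
        calc 2 = 2 ^ 1 := (pow_one 2).symm
          _ ≤ 2 ^ (c + 2) := Nat.pow_le_pow_right (by norm_num) (by omega)
      have h10 : c < n ^ c := lt_of_lt_of_le Nat.lt_two_pow_self (Nat.pow_le_pow_left h9 c)
      have h11 : n ^ (c + 2) = n ^ c * (n * n) := by ring
      have h12 : 4 ≤ n * n := Nat.mul_le_mul h9 h9
      rw [h11]
      nlinarith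
    exact_mod_cast h8

end Pool.Agent.PC
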