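import Pool.Agent.helper64.PC.SpecE

set_option autoImplicit false

namespace Pool.Agent.PC

open Pool.Agent.PB

theorem NQW (hQWM : QWM_stmt) (hGRL : GRL_stmt) (hPNP : PNP_stmt) : NQW_stmt := by
  intro G hgap m hm hall
  obtain ⟨h1, h2⟩ := hGRL m hm
  obtain ⟨A, hA1, hA2, n₀, hA3⟩ := hQWM G hgap (fun n => m n + Nat.log 2 n + 1) h1
  obtain ⟨c, hc⟩ := hall A hA2 (hPNP A hA1)
  obtain ⟨n₃, h3⟩ := h2 c
  set n := n₀ + n₃ + 1 with hn
  obtain ⟨h4, h5⟩ := h3 n (by omega)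
  have h6 : Size (upTo G (m n + Nat.log 2 n + 1)) (A n) (n ^ c + c) :=
    Size.mono_basis (upTo_mono (by omega)) (hc n (by omega))
  have h7 := hA3 n (by omega) _ h6
  exact absurd h5 (not_lt.2 h7)

end Pool.Agent.PC
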