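import Pool.Agent.helper64.PC.SpecE

set_option autoImplicit false

namespace Pool.Agent.PC

open Pool.Agent.PB

theorem QSM (hFWM : FWM_stmt) (hBCM : BCM_stmt) (hCLB : CLB_stmt) (hNPS : NPS_stmt)
    (hNPC : NPC_stmt) (hPRP : PRP_stmt) : QSM_stmt := by
  intro G m hG hm hT hW hsd
  constructor
  · intro h A hA hA'
    exact (hBCM G m A hG hm).2.2 (h _ (hCLB G hT hW hsd A) (hNPS A hA hA'))
  · intro h A hs hA
    have h1 : ∀ n, 1 ≤ n → SelfDual (A n) := fun n hn => (hPRP G n (A n) (hs n hn)).2.2.2.2.1 hsd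
    exact hFWM G m A hT hW hs (h A hA (hNPC A h1 hA))

end Pool.Agent.PC
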