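import Pool.Agent.helper64.PC.SpecR

/-!
# Row QWR of project pc (MP_069684_lc, owner helper64)
-/

set_option autoImplicit false

namespace Pool.Agent.PC

open Pool.Agent.PB

theorem QWR_mono {G : Set Gate} {n : ℕ} {f : BF n} {s t : ℕ} (h : Size G f s) (hst : s ≤ t) :
    Size G f t := by
  obtain ⟨l, h1, h2, h3⟩ := h
  exact ⟨l, h1, h2.trans hst, h3⟩

theorem QWR_ren (hSUB : SUB_stmt) {G : Set Gate} {m n : ℕ} {F : BF m} {s : ℕ} (r : Fin m → Fin n)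
    (h : Size G F s) : Size G (fun x : Fin n → Bool => F fun i => x (r i)) s := by
  obtain ⟨l', h1, h2, h3⟩ := hSUB G m n F s [] (fun i => fun x => x (r i)) h Prog.nil
    (fun i => Or.inr ⟨r i, rfl⟩)
  rw [List.append_nil] at h1 h3
  exact ⟨l', h1, h2, h3⟩

theorem QWR_zero (n : ℕ) : Size std (fun _ : Fin n → Bool => false) 1 := by
  refine ⟨[fun x => (gConst false).2 fun i => (fun _ => fun _ => false : Fin 0 → BF n) i x], ?_, ?_, ?_⟩
  · exact Prog.step [] (gConst false) (fun _ => fun _ => false) Prog.nil (by simp [std])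
      (fun i => Fin.elim0 i)
  · simp
  · left
    exact List.mem_singleton.mpr rfl

/-- One slice. -/
theorem QWR_slice (hRSB : RSB_stmt) (hSUB : SUB_stmt) (C n₀ : ℕ) (m : ℕ → ℕ)
    (P : ℕ → ℕ → Prop)
    (hF : ∀ n, n₀ ≤ n → ∃ N, 1 ≤ N ∧ N ≤ n ∧ ∃ m', m n ≤ m' ∧ ∃ f : BF N, Mono f ∧
      Size std f (C * (N + 2) ^ 4) ∧ ∀ s, RSize m' f s → P n s)
    (n : ℕ) : ∃ g : BF n, Size std g ((C + 1) * ((n + 2) ^ 4 + n + 4 + 2)) ∧ Mono g ∧
      (n₀ ≤ n → ∀ s, RSize (m n) g s → P n s) := by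
  by_cases h : n₀ ≤ n
  · obtain ⟨N, hN1, hcN, m', hmm, f, hf1, hf2, hf3⟩ := hF n h
    refine ⟨fun x => f fun i => x (Fin.castLE hcN i), ?_, ?_, ?_⟩
    · refine QWR_mono (QWR_ren hSUB (Fin.castLE hcN) hf2) ?_
      have h2 : (N + 2) ^ 4 ≤ (n + 2) ^ 4 := Nat.pow_le_pow_left (by omega) 4
      exact Nat.mul_le_mul (by omega) (by omega)
    · intro x y hxy
      exact hf1 _ _ (fun i => hxy _)
    · intro _ s hs
      apply hf3
      have h1 := hRSB (m n) m' n N _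
        (fun j : Fin n => if hj : (j : ℕ) < N then (⟨j, hj⟩ : Fin N) else ⟨0, hN1⟩) s hmm hs
      have h2 : (fun x : Fin N → Bool => f fun i => x
          ((fun j : Fin n => if hj : (j : ℕ) < N then (⟨j, hj⟩ : Fin N) else ⟨0, hN1⟩)
            (Fin.castLE hcN i))) = f := by
        funext x
        congr 1
        funext i
        have h3 : ((Fin.castLE hcN i : Fin n) : ℕ) < N := i.2
        show x (if hj : ((Fin.castLE hcN i : Fin n) : ℕ) < N then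
          (⟨(Fin.castLE hcN i : Fin n), hj⟩ : Fin N) else ⟨0, hN1⟩) = x i
        rw [dif_pos h3]
        rfl
      rw [h2] at h1
      exact h1
  · refine ⟨fun _ => false, ?_, ?_, ?_⟩
    · refine QWR_mono (QWR_zero n) ?_
      have : 1 * 1 ≤ (C + 1) * ((n + 2) ^ 4 + n + 4 + 2) := Nat.mul_le_mul (by omega) (by omega)
      simpa using this
    · intro x y _ h1
      exact h1
    · intro h1
      exact absurd h1 h

theorem QWR (hBSR : BSR_stmt) (hQNM : QNM_stmt) (hRSB : RSB_stmt) (hSUB : SUB_stmt) (hPOL : POL_stmt) :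
    QWR_stmt := by
  intro m hm
  obtain ⟨C, hB⟩ := hBSR
  obtain ⟨n₀, hn₀, hQ⟩ := hQNM 1 m le_rfl hm
  have hF : ∀ n, n₀ ≤ n → ∃ N, 1 ≤ N ∧ N ≤ n ∧ ∃ m', m n ≤ m' ∧ ∃ f : BF N, Mono f ∧
      Size std f (C * (N + 2) ^ 4) ∧ ∀ s, RSize m' f s →
        (2 : ℝ) ^ (((n : ℝ) / m n) ^ (1 / 19 : ℝ)) ≤ s := by
    intro n hn
    obtain ⟨e, r, he, hr, her, hcn, hmr, hs⟩ := hQ n hn
    obtain ⟨h, hmono, hsize, hlow⟩ := hB e r he hr her
    rw [one_mul] at hcn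
    refine ⟨2 ^ (6 * e * (r + 1)), Nat.one_le_two_pow, hcn, 2 ^ (6 * e * (r - 1)), hmr, h, hmono,
      hsize, ?_⟩
    intro s hs'
    exact hs s ((hlow s hs').trans (by omega))
  choose A hA using QWR_slice hRSB hSUB C n₀ m
    (fun n s => (2 : ℝ) ^ (((n : ℝ) / m n) ^ (1 / 19 : ℝ)) ≤ s) hF
  obtain ⟨d, hd⟩ := hPOL (C + 1) 4
  exact ⟨A, ⟨d, fun n => QWR_mono (hA n).1 (hd n)⟩, fun n => (hA n).2.1, n₀,
    fun n hn s hs => (hA n).2.2 hn s hs⟩

end Pool.Agent.PC
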