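import Pool.Agent.helper27.PC.REP
import Pool.Agent.helper27.PC.CAR

/-!
# PC project: trace recursion and the ribbon rule
-/

namespace Pool.Agent.helper27.PC

open Module Finset

section trace

variable {K : Type*} [Field K]

/-- trace on a set of words -/
noncomputable def trF (F : Finset (List Lab)) (φ : Module.End K (List Lab →₀ K)) : K :=
  ∑ w ∈ F, φ (Finsupp.single w 1) w

theorem trP_eq (n : ℕ) (S S' : St) (φ : Module.End K (List Lab →₀ K)) :
    trP n S S' φ = trF (paths n S S') φ := rfl

theorem trF_eq (F : Finset (List Lab)) (φ : Module.End K (List Lab →₀ K)) :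
    trF F φ = Matrix.trace (matF F φ) := by
  unfold trF Matrix.trace matF
  rw [← Finset.sum_coe_sort F]
  rfl

theorem trF_congr {F : Finset (List Lab)} {φ ψ : Module.End K (List Lab →₀ K)}
    (h : ∀ w ∈ F, φ (Finsupp.single w 1) = ψ (Finsupp.single w 1)) : trF F φ = trF F ψ := by
  unfold trF
  exact sum_congr rfl fun w hw => by rw [h w hw]

/-! ### the ring lemma -/

/-- the product `t_i t_{i+1} ... t_{i+n-1}` -/
def asc {R : Type*} [Ring R] (t : ℕ → R) (i n : ℕ) : R := ((List.range' i n).map t).prod

theorem asc_zero {R : Type*} [Ring R] (t : ℕ → R) (i : ℕ) : asc t i 0 = 1 := rfl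

theorem asc_succ {R : Type*} [Ring R] (t : ℕ → R) (i n : ℕ) :
    asc t i (n + 1) = t i * asc t (i + 1) n := by
  unfold asc; rw [List.range'_succ, List.map_cons, List.prod_cons]

theorem asc_succ' {R : Type*} [Ring R] (t : ℕ → R) (i n : ℕ) :
    asc t i (n + 1) = asc t i n * t (i + n) := by
  unfold asc; rw [List.range'_concat, List.map_append, List.prod_append]; simp

theorem asc_comm {R : Type*} [Ring R] (t : ℕ → R) (i n : ℕ) (y : R)
    (h : ∀ j, i ≤ j → j < i + n → t j * y = y * t j) : asc t i n * y = y * asc t i n := by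
  induction n generalizing i with
  | zero => simp [asc_zero]
  | succ n ih =>
    rw [asc_succ, mul_assoc, ih (i + 1) fun j h1 h2 => h j (by omega) (by omega), ← mul_assoc,
      h i le_rfl (by omega), mul_assoc]

theorem asc_braid {R : Type*} [Ring R] (t : ℕ → R) (a : ℕ)
    (hb : ∀ i, i + 1 < a → t i * t (i + 1) * t i = t (i + 1) * t i * t (i + 1))
    (hc : ∀ i j, i + 1 < j → j < a → t i * t j = t j * t i) (j : ℕ) (hj : j + 1 < a) :
    asc t 0 a * t j = t (j + 1) * asc t 0 a := by
  obtain ⟨k, rfl⟩ : ∃ k, a = j + 2 + k := ⟨a - (j + 2), by omega⟩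
  have split : asc t 0 (j + 2 + k) = asc t 0 j * (t j * (t (j + 1) * asc t (j + 2) k)) := by
    have h1 : ∀ m n i, asc t i (m + n) = asc t i m * asc t (i + m) n := by
      intro m n i
      induction m generalizing i with
      | zero => simp [asc_zero]
      | succ m ih =>
        rw [show m + 1 + n = m + n + 1 by ring, asc_succ, asc_succ, ih, mul_assoc]
        congr 3; ring
    rw [show j + 2 + k = j + (k + 2) by ring, h1, show k + 2 = (k + 1) + 1 by ring, asc_succ, asc_succ,
      zero_add]
  have c1 : asc t (j + 2) k * t j = t j * asc t (j + 2) k :=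
    asc_comm t _ _ _ fun i h1 h2 => (hc j i (by omega) (by omega)).symm
  have c2 : asc t 0 j * t (j + 1) = t (j + 1) * asc t 0 j :=
    asc_comm t _ _ _ fun i h1 h2 => hc i (j + 1) (by omega) (by omega)
  rw [split]
  calc asc t 0 j * (t j * (t (j + 1) * asc t (j + 2) k)) * t j
      = asc t 0 j * (t j * (t (j + 1) * (asc t (j + 2) k * t j))) := by noncomm_ring
    _ = asc t 0 j * (t j * t (j + 1) * t j) * asc t (j + 2) k := by rw [c1]; noncomm_ring
    _ = (asc t 0 j * t (j + 1)) * (t j * (t (j + 1) * asc t (j + 2) k)) := by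
        rw [hb j (by omega)]; noncomm_ring
    _ = t (j + 1) * (asc t 0 j * (t j * (t (j + 1) * asc t (j + 2) k))) := by
        rw [c2]; noncomm_ring

/-- cyclic property of the trace of a block -/
theorem tr_block {R : Type*} [Ring R] {Q : Type*} (τ : R → Q) (hτ : ∀ a b, τ (a * b) = τ (b * a))
    (t : ℕ → R) (x : R) (a : ℕ)
    (hb : ∀ i, i + 1 < a → t i * t (i + 1) * t i = t (i + 1) * t i * t (i + 1))
    (hc : ∀ i j, i + 1 < j → j < a → t i * t j = t j * t i)
    (hx : ∀ j, 1 ≤ j → j < a → x * t j = t j * x) (ha : 1 ≤ a) :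
    τ (t 0 * x * t 0 * asc t 1 (a - 1)) = τ (x * asc t 0 a * t (a - 1)) := by
  have h1 : t 0 * x * t 0 * asc t 1 (a - 1) = t 0 * (x * asc t 0 a) := by
    obtain ⟨k, rfl⟩ : ∃ k, a = k + 1 := ⟨a - 1, by omega⟩
    rw [asc_succ, Nat.add_sub_cancel]
    simp only [mul_assoc, zero_add]
  rw [h1, hτ]
  have step : ∀ j, j < a → τ (x * asc t 0 a * t 0) = τ (x * asc t 0 a * t j) := by
    intro j
    induction j with
    | zero => intro _; rfl
    | succ j ih =>
      intro hj
      rw [ih (by omega), mul_assoc, asc_braid t a hb hc j hj, ← mul_assoc, hx (j + 1) (by omega) hj,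
        mul_assoc, hτ]
  exact step (a - 1) (by omega)

/-- the same for the reversed product -/
theorem tr_block_rev {R : Type*} [Ring R] {Q : Type*} (τ : R → Q) (hτ : ∀ a b, τ (a * b) = τ (b * a))
    (t : ℕ → R) (x : R) (a : ℕ)
    (hb : ∀ i, i + 1 < a → t i * t (i + 1) * t i = t (i + 1) * t i * t (i + 1))
    (hc : ∀ i j, i + 1 < j → j < a → t i * t j = t j * t i)
    (hx : ∀ j, 1 ≤ j → j < a → x * t j = t j * x) (ha : 1 ≤ a) :
    τ (((List.range' 1 (a - 1)).reverse.map t).prod * (t 0 * x * t 0)) =
      τ (t (a - 1) * (((List.range' 0 a).reverse.map t).prod * x)) := by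
  have key := tr_block (R := Rᵐᵒᵖ) (fun r => τ r.unop) (fun p q => hτ _ _)
    (fun i => MulOpposite.op (t i)) (MulOpposite.op x) a
    (fun i hi => by
      rw [← MulOpposite.op_mul, ← MulOpposite.op_mul, ← MulOpposite.op_mul, ← MulOpposite.op_mul,
        ← mul_assoc, ← mul_assoc, hb i hi])
    (fun i j h1 h2 => by rw [← MulOpposite.op_mul, ← MulOpposite.op_mul, hc i j h1 h2])
    (fun j h1 h2 => by rw [← MulOpposite.op_mul, ← MulOpposite.op_mul, hx j h1 h2]) ha
  have e : ∀ i n, (asc (fun i => MulOpposite.op (t i)) i n).unop =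
      ((List.range' i n).reverse.map t).prod := by
    intro i n
    unfold asc
    rw [MulOpposite.unop_list_prod, List.map_map, List.map_reverse]
    rfl
  simp only [MulOpposite.unop_mul, MulOpposite.unop_op, e] at key
  rw [← mul_assoc] at key
  rw [← mul_assoc, ← mul_assoc] at *
  simpa [mul_assoc] using key

/-! ### shifts and prefixes -/

/-- `φ'` is `φ` acting after the first letter -/
def Sh (φ φ' : Module.End K (List Lab →₀ K)) : Prop :=
  ∀ (l : Lab) (u : List Lab →₀ K), φ' (Finsupp.mapDomain (List.cons l) u) =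
    Finsupp.mapDomain (List.cons l) (φ u)

theorem Sh.mul {φ φ' ψ ψ' : Module.End K (List Lab →₀ K)} (h1 : Sh φ φ') (h2 : Sh ψ ψ') :
    Sh (φ * ψ) (φ' * ψ') := by
  intro l u
  rw [Module.End.mul_apply, h2, h1, Module.End.mul_apply]

theorem Sh.one : Sh (1 : Module.End K (List Lab →₀ K)) 1 := fun _ _ => rfl

theorem Sh_Top (v : K) (x : Lab → K) (i : ℕ) : Sh (Top v x i) (Top v x (i + 1)) := by
  intro l u
  induction u using Finsupp.induction_linear with
  | zero => simp
  | add f g hf hg => simp only [Finsupp.mapDomain_add, map_add, hf, hg]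
  | single z c =>
    rw [Finsupp.mapDomain_single]
    unfold Top
    rw [Finsupp.linearCombination_single, Finsupp.linearCombination_single, Finsupp.mapDomain_smul, tw]

theorem Sh_Xop (x : Lab → K) (i : ℕ) : Sh (Xop x i) (Xop x (i + 1)) := by
  intro l u
  induction u using Finsupp.induction_linear with
  | zero => simp
  | add f g hf hg => simp only [Finsupp.mapDomain_add, map_add, hf, hg]
  | single z c =>
    rw [Finsupp.mapDomain_single, Xop_single, Xop_single, Finsupp.mapDomain_single]
    rfl

theorem Sh_prod {ι : Type*} (f f' : ι → Module.End K (List Lab →₀ K)) (l : List ι)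
    (h : ∀ i ∈ l, Sh (f i) (f' i)) : Sh (l.map f).prod (l.map f').prod := by
  induction l with
  | nil => exact Sh.one
  | cons i l ih =>
    rw [List.map_cons, List.prod_cons, List.map_cons, List.prod_cons]
    exact (h i (by simp)).mul (ih fun j hj => h j (List.mem_cons_of_mem _ hj))

theorem trP_shift {φ φ' : Module.End K (List Lab →₀ K)} (h : Sh φ φ') (n : ℕ) (S S' : St) :
    trP (n + 1) S S' φ' = ∑ l ∈ addable 1 S, trP n (move 1 S l) S' φ := by
  unfold trP
  rw [paths, sum_biUnion]
  · apply sum_congr rfl
    intro l _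
    rw [sum_image (fun z _ z' _ h => (List.cons.inj h).2)]
    apply sum_congr rfl
    intro z _
    have h1 := h l (Finsupp.single z 1)
    rw [Finsupp.mapDomain_single] at h1
    rw [h1, Finsupp.mapDomain_apply (fun a b h => (List.cons.inj h).2)]
  · intro l _ l' _ hne
    rw [Function.onFun, Finset.disjoint_left]
    intro w hw hw'
    rw [mem_image] at hw hw'
    obtain ⟨z, _, rfl⟩ := hw
    obtain ⟨z', _, h'⟩ := hw'
    exact hne (List.cons.inj h').1.symm

/-- `φ` acts on the first `n` letters -/
def Pre (n : ℕ) (φ : Module.End K (List Lab →₀ K)) : Prop :=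
  ∀ p : List Lab, p.length = n → (∀ u, φ (Finsupp.single p 1) u ≠ 0 → u.length = n) ∧
    ∀ z, φ (Finsupp.single (p ++ z) 1) = Finsupp.mapDomain (fun w => w ++ z) (φ (Finsupp.single p 1))

theorem Pre.mul {n : ℕ} {φ ψ : Module.End K (List Lab →₀ K)} (h1 : Pre n φ) (h2 : Pre n ψ) :
    Pre n (φ * ψ) := by
  have key : ∀ (z : List Lab) (f : List Lab →₀ K), (∀ u ∈ f.support, u.length = n) →
      φ (Finsupp.mapDomain (fun w => w ++ z) f) = Finsupp.mapDomain (fun w => w ++ z) (φ f) ∧
      ∀ u, φ f u ≠ 0 → u.length = n := by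
    intro z f
    induction f using Finsupp.induction with
    | zero => intro _; simp
    | single_add w c f hw hc ih =>
      intro hf
      have hsupp : (Finsupp.single w c + f).support = insert w f.support := by
        rw [Finsupp.support_add_eq, Finsupp.support_single _ hc]; rfl
        rw [Finsupp.support_single _ hc, Finset.disjoint_singleton_left]; exact hw
      rw [hsupp] at hf
      have hwl := hf w (mem_insert_self _ _)
      obtain ⟨i1, i2⟩ := ih fun u hu => hf u (mem_insert_of_mem hu)
      obtain ⟨j1, j2⟩ := h1 w hwl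
      have e : ∀ (y : List Lab), (Finsupp.single y c : List Lab →₀ K) = c • Finsupp.single y 1 := by
        intro y; rw [Finsupp.smul_single, smul_eq_mul, mul_one]
      constructor
      · rw [Finsupp.mapDomain_add, map_add, map_add, Finsupp.mapDomain_add, i1,
          Finsupp.mapDomain_single, e (w ++ z), map_smul, j2, e w, map_smul, Finsupp.mapDomain_smul]
      · intro u hu
        rw [map_add, Finsupp.add_apply, e w, map_smul, Finsupp.smul_apply] at hu
        by_cases h3 : φ f u = 0
        · rw [h3, add_zero] at hu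
          exact j1 u (right_ne_zero_of_smul hu)
        · exact i2 u h3
  intro p hp
  obtain ⟨a1, a2⟩ := h2 p hp
  have hs : ∀ u ∈ (ψ (Finsupp.single p 1)).support, u.length = n := fun u hu =>
    a1 u (Finsupp.mem_support_iff.1 hu)
  refine ⟨fun u hu => (key [] _ hs).2 u hu, fun z => ?_⟩
  rw [Module.End.mul_apply, a2, (key z _ hs).1, Module.End.mul_apply]

theorem Pre.one (n : ℕ) : Pre n (1 : Module.End K (List Lab →₀ K)) := by
  intro p hp
  refine ⟨fun u hu => ?_, fun z => ?_⟩
  · rw [Module.End.one_apply, Finsupp.single_apply] at hu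
    split_ifs at hu with h
    · rw [← h]; exact hp
    · exact absurd rfl hu
  · rw [Module.End.one_apply, Module.End.one_apply, Finsupp.mapDomain_single]

theorem Pre_Top (v : K) (x : Lab → K) {i n : ℕ} (h : i + 1 < n) : Pre n (Top v x i) := by
  intro p hp
  obtain ⟨q, a, b, r, rfl, hq⟩ := exists_split₂ (i := i) (w := p) (by omega)
  have hlen : (q ++ b :: a :: r).length = n := by rw [← hp]; simp
  refine ⟨fun u hu => ?_, fun z => ?_⟩
  · rw [Top_append hq, Finsupp.add_apply, Finsupp.single_apply, Finsupp.single_apply] at hu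
    by_cases h1 : q ++ a :: b :: r = u
    · rw [← h1]; exact hp
    · rw [if_neg h1, zero_add] at hu
      split_ifs at hu with h2
      · rw [← h2]; exact hlen
      · exact absurd rfl hu
  · rw [Top_append hq, Finsupp.mapDomain_add, Finsupp.mapDomain_single, Finsupp.mapDomain_single]
    have := Top_append (v := v) (x := x) (i := i) (p := q) (z := r ++ z) (a := a) (b := b) hq 1
    simpa using this

theorem Pre_Xop (x : Lab → K) {i n : ℕ} (h : i < n) : Pre n (Xop x i) := by
  intro p hp
  refine ⟨fun u hu => ?_, fun z => ?_⟩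
  · rw [Xop_single, Finsupp.single_apply] at hu
    split_ifs at hu with h1
    · rw [← h1]; exact hp
    · exact absurd rfl hu
  · rw [Xop_single, Xop_single, Finsupp.mapDomain_single, List.getElem?_append_left (by omega)]

theorem Pre_prod {n : ℕ} {ι : Type*} (f : ι → Module.End K (List Lab →₀ K)) (l : List ι)
    (h : ∀ i ∈ l, Pre n (f i)) : Pre n (l.map f).prod := by
  induction l with
  | nil => exact Pre.one n
  | cons i l ih =>
    rw [List.map_cons, List.prod_cons]
    exact (h i (by simp)).mul (ih fun j hj => h j (List.mem_cons_of_mem _ hj))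

/-- sum over the words from `S` to `S'` through the intermediate state -/
theorem sum_paths_add {Q : Type*} [AddCommMonoid Q] (n k : ℕ) (S S' : St) (f : List Lab → Q) :
    ∑ w ∈ paths (n + k) S S', f w =
      ∑ M ∈ ends n S, ∑ p ∈ paths n S M, ∑ z ∈ paths k M S', f (p ++ z) := by
  have disj : ∀ {n : ℕ} {S M M' : St} {p : List Lab}, p ∈ paths n S M → p ∈ paths n S M' → M = M' := by
    intro n
    induction n with
    | zero =>
      intro S M M' p h h'
      rw [mem_paths_zero] at h h'
      rw [← h.2, ← h'.2]
    | succ n ih =>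
      intro S M M' p h h'
      rw [mem_paths_succ] at h
      obtain ⟨l, z, rfl, -, hz⟩ := h
      rw [mem_paths_cons] at h'
      exact ih hz h'.2
  rw [sum_sigma', sum_sigma']
  symm
  refine sum_bij (fun x _ => x.1.2 ++ x.2) ?_ ?_ ?_ ?_
  · rintro ⟨⟨M, p⟩, z⟩ h
    simp only [mem_sigma] at h
    exact (mem_paths_append (length_of_mem_paths h.1.2)).2 ⟨M, h.1.2, h.2⟩
  · rintro ⟨⟨M, p⟩, z⟩ h ⟨⟨M', p'⟩, z'⟩ h' e
    simp only [mem_sigma] at h h' e
    obtain ⟨e1, e2⟩ := List.append_inj e (by
      rw [length_of_mem_paths h.1.2, length_of_mem_paths h'.1.2])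
    subst e1 e2
    have := disj h.1.2 h'.1.2
    subst this
    rfl
  · intro w hw
    have hl := length_of_mem_paths hw
    rw [← List.take_append_drop n w, mem_paths_append (by rw [List.length_take]; omega)] at hw
    obtain ⟨M, h1, h2⟩ := hw
    exact ⟨⟨⟨M, w.take n⟩, w.drop n⟩, by
      simp only [mem_sigma]; exact ⟨⟨end_mem_ends h1, h1⟩, h2⟩, List.take_append_drop n w⟩
  · intro x _; rfl

theorem trP_prefix {n : ℕ} {φ : Module.End K (List Lab →₀ K)} (h : Pre n φ) (k : ℕ) (S S' : St) :
    trP (n + k) S S' φ = ∑ M ∈ ends n S, trP n S M φ * ((paths k M S').card : K) := by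
  unfold trP
  rw [sum_paths_add]
  apply sum_congr rfl
  intro M _
  rw [sum_mul]
  apply sum_congr rfl
  intro p hp
  rw [← nsmul_eq_mul', ← sum_const]
  apply sum_congr rfl
  intro z _
  rw [(h p (length_of_mem_paths hp)).2 z,
    Finsupp.mapDomain_apply (fun a b h => List.append_cancel_right h)]

/-! ### the recursion -/

theorem range'_one (b : ℕ) : List.range' 1 b = (List.range' 0 b).map (· + 1) := by
  apply List.ext_getElem
  · simp
  · intro i h1 h2
    simp only [List.getElem_range', List.getElem_map]
    omega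

theorem opW_range (v : K) (m a : ℕ) :
    opW v m (List.range (a + 1)) = Xop (xK v m) 0 * asc (Top v (xK v m)) 0 a := by
  unfold opW asc
  rw [List.range_succ_eq_map, List.map_cons, List.prod_cons, List.map_map, ← List.range_eq_range']
  rfl

theorem opW_range_rev (v : K) (m a : ℕ) :
    opW v m (List.range (a + 1)).reverse =
      ((List.range' 0 a).reverse.map (Top v (xK v m))).prod * Xop (xK v m) 0 := by
  unfold opW
  rw [List.range_succ_eq_map, List.reverse_cons, List.map_append, List.prod_append, ← List.map_reverse,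
    List.map_map, ← List.range_eq_range']
  simp only [List.map_cons, List.map_nil, List.prod_cons, List.prod_nil, mul_one]
  rfl

/-- the trace of the first block on the words from `S` to `S'` -/
noncomputable def bt (v : K) (m a : ℕ) (S S' : St) : K := trP a S S' (opW v m (List.range a))

/-- the same with the reversed word -/
noncomputable def bt' (v : K) (m a : ℕ) (S S' : St) : K := trP a S S' (opW v m (List.range a).reverse)

theorem matF_add {F : Finset (List Lab)} (φ ψ : Module.End K (List Lab →₀ K)) :
    matF F (φ + ψ) = matF F φ + matF F ψ := rfl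

theorem matF_smul {F : Finset (List Lab)} (c : K) (φ : Module.End K (List Lab →₀ K)) :
    matF F (c • φ) = c • matF F φ := rfl

section rec

variable {v : K} (hv : Generic v) (m a : ℕ) (S S' : St)

include hv

/-- relations of the matrices on the words from `S` to `S'` -/
theorem RR_rel (n : ℕ) :
    (∀ i, i + 2 < n → matF (paths n S S') (Top v (xK v m) i) *
        matF (paths n S S') (Top v (xK v m) (i + 1)) * matF (paths n S S') (Top v (xK v m) i) =
      matF (paths n S S') (Top v (xK v m) (i + 1)) * matF (paths n S S') (Top v (xK v m) i) *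
        matF (paths n S S') (Top v (xK v m) (i + 1))) ∧
    (∀ i j, i + 1 < j → j + 1 < n → matF (paths n S S') (Top v (xK v m) i) *
        matF (paths n S S') (Top v (xK v m) j) =
      matF (paths n S S') (Top v (xK v m) j) * matF (paths n S S') (Top v (xK v m) i)) ∧
    (∀ j, 1 ≤ j → j + 1 < n → matF (paths n S S') (Xop (xK v m) 0) *
        matF (paths n S S') (Top v (xK v m) j) =
      matF (paths n S S') (Top v (xK v m) j) * matF (paths n S S') (Xop (xK v m) 0)) ∧
    (1 < n → matF (paths n S S') (Top v (xK v m) 0) * matF (paths n S S') (Xop (xK v m) 0) *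
        matF (paths n S S') (Top v (xK v m) 0) = matF (paths n S S') (Xop (xK v m) 1)) ∧
    (∀ i, i + 1 < n → matF (paths n S S') (Top v (xK v m) i) *
        matF (paths n S S') (Top v (xK v m) i) =
      (v - v⁻¹) • matF (paths n S S') (Top v (xK v m) i) + 1) := by
  have hx := xK_ok hv m
  have hT : ∀ i, Stab (paths n S S') (Top v (xK v m) i) := Stab_Top hx n S S'
  have hX : ∀ i, Stab (paths n S S') (Xop (K := K) (xK v m) i) := fun i => Stab_Xop _ _
  have len : ∀ w ∈ paths n S S', w.length = n := fun w hw => length_of_mem_paths hw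
  refine ⟨?_, ?_, ?_, ?_, ?_⟩
  · intro i hi
    rw [← matF_mul (hT _), ← matF_mul (hT _), ← matF_mul (hT _), ← matF_mul (hT _)]
    apply matF_congr
    intro w hw
    have hl := len w hw
    obtain ⟨p, a, b, c, z, rfl, hp⟩ := exists_split₃ (i := i) (w := w) (by omega)
    obtain ⟨h1, h2, h3⟩ := mem_split₃ hw
    exact braid_word hx hp h1 h2 h3
  · intro i j hij hj
    rw [← matF_mul (hT _), ← matF_mul (hT _)]
    apply matF_congr
    intro w hw
    have hl := len w hw
    exact comm_word (by omega) (by omega)
  · intro j hj1 hj2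
    rw [← matF_mul (hT _), ← matF_mul (hX _)]
    apply matF_congr
    intro w hw
    have hl := len w hw
    exact Xop_comm_word (by omega) (by omega)
  · intro h1n
    rw [← matF_mul (hX _), ← matF_mul (hT _)]
    apply matF_congr
    intro w hw
    have hl := len w hw
    obtain ⟨p, a, b, z, rfl, hp⟩ := exists_split₂ (i := 0) (w := w) (by omega)
    exact TXT_word hx hp (mem_split₂ hw).1
  · intro i hi
    rw [← matF_mul (hT _), ← matF_one, ← matF_smul, ← matF_add]
    apply matF_congr
    intro w hw
    have hl := len w hw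
    obtain ⟨p, a, b, z, rfl, hp⟩ := exists_split₂ (i := i) (w := w) (by omega)
    exact quad_word hx hp (mem_split₂ hw).1

theorem bt_rec (ha : 1 ≤ a) :
    (v - v⁻¹) * bt v m (a + 1) S S' = (∑ l ∈ addable 1 S, bt v m a (move 1 S l) S') -
      ∑ M ∈ ends a S, bt v m a S M * ((paths 1 M S').card : K) := by
  obtain ⟨b, rfl⟩ : ∃ b, a = b + 1 := ⟨a - 1, by omega⟩
  have hx := xK_ok hv m
  set F := paths (b + 1 + 1) S S' with hF
  set T := Top v (xK v m) with hTdef
  set X := Xop (K := K) (xK v m) with hXdef
  have hT : ∀ i, Stab F (T i) := Stab_Top hx _ S S'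
  have hX : ∀ i, Stab F (X i) := fun i => Stab_Xop _ _
  obtain ⟨r1, r2, r3, r4, r5⟩ := RR_rel hv m S S' (b + 1 + 1)
  have hasc : ∀ i n, Stab F (asc T i n) ∧ matF F (asc T i n) = asc (fun i => matF F (T i)) i n :=
    fun i n => matF_prod T _ fun j _ => hT j
  -- the shifted block
  have e1 : ∑ l ∈ addable 1 S, bt v m (b + 1) (move 1 S l) S' =
      trF F (X 1 * asc T 1 b) := by
    have hs : Sh (opW v m (List.range (b + 1))) (X 1 * asc T 1 b) := by
      rw [opW_range]
      refine (Sh_Xop _ 0).mul ?_
      have := Sh_prod (fun i => T i) (fun i => T (i + 1)) (List.range' 0 b) fun i _ => Sh_Top v _ i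
      have e : asc T 1 b = ((List.range' 0 b).map fun i => T (i + 1)).prod := by
        unfold asc
        rw [range'_one, List.map_map]
        rfl
      rw [e]; exact this
    rw [← trP_eq, trP_shift hs]
    rfl
  have e2 : ∑ M ∈ ends (b + 1) S, bt v m (b + 1) S M * ((paths 1 M S').card : K) =
      trF F (X 0 * asc T 0 b) := by
    have hp : Pre (b + 1) (opW v m (List.range (b + 1))) := by
      rw [opW_range]
      refine (Pre_Xop _ (by omega)).mul (Pre_prod _ _ fun i hi => Pre_Top v _ ?_)
      rw [List.mem_range'_1] at hi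
      omega
    have := trP_prefix hp 1 S S'
    rw [opW_range] at this
    rw [← trP_eq, this]
    unfold bt
    rw [opW_range]
  have e3 : bt v m (b + 1 + 1) S S' = trF F (X 0 * asc T 0 (b + 1)) := by
    unfold bt; rw [opW_range, trP_eq]
  have e4 := tr_block (R := Matrix F F K) Matrix.trace (fun a b => Matrix.trace_mul_comm a b)
    (fun i => matF F (T i)) (matF F (X 0)) (b + 1) (fun i hi => r1 i (by omega))
    (fun i j hij hj => r2 i j hij (by omega)) (fun j h1 h2 => r3 j h1 (by omega)) (by omega)
  have e5 : trF F (X 1 * asc T 1 b) = Matrix.trace (matF F (T 0) * matF F (X 0) * matF F (T 0) *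
      asc (fun i => matF F (T i)) 1 (b + 1 - 1)) := by
    rw [trF_eq, matF_mul (hasc 1 b).1, (hasc 1 b).2, r4 (by omega), Nat.add_sub_cancel]
  have e6 : matF F (X 0) * asc (fun i => matF F (T i)) 0 (b + 1) * matF F (T (b + 1 - 1)) =
      (v - v⁻¹) • (matF F (X 0) * asc (fun i => matF F (T i)) 0 (b + 1)) +
        matF F (X 0) * asc (fun i => matF F (T i)) 0 b := by
    rw [asc_succ', Nat.add_sub_cancel, zero_add, mul_assoc, mul_assoc, r5 b (by omega), mul_add,
      mul_add, mul_one, mul_smul_comm, mul_smul_comm]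
  rw [e1, e2, e3, e5, e4, e6, Matrix.trace_add, Matrix.trace_smul, smul_eq_mul, trF_eq, trF_eq,
    matF_mul (hasc 0 _).1, (hasc 0 _).2, matF_mul (hasc 0 b).1, (hasc 0 b).2]
  ring

theorem bt'_rec (ha : 1 ≤ a) :
    (v - v⁻¹) * bt' v m (a + 1) S S' = (∑ l ∈ addable 1 S, bt' v m a (move 1 S l) S') -
      ∑ M ∈ ends a S, bt' v m a S M * ((paths 1 M S').card : K) := by
  obtain ⟨b, rfl⟩ : ∃ b, a = b + 1 := ⟨a - 1, by omega⟩
  have hx := xK_ok hv m
  set F := paths (b + 1 + 1) S S' with hF
  set T := Top v (xK v m) with hTdef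
  set X := Xop (K := K) (xK v m) with hXdef
  have hT : ∀ i, Stab F (T i) := Stab_Top hx _ S S'
  have hX : ∀ i, Stab F (X i) := fun i => Stab_Xop _ _
  obtain ⟨r1, r2, r3, r4, r5⟩ := RR_rel hv m S S' (b + 1 + 1)
  have hdesc : ∀ i n, Stab F (((List.range' i n).reverse.map T).prod) ∧
      matF F (((List.range' i n).reverse.map T).prod) =
        ((List.range' i n).reverse.map fun i => matF F (T i)).prod :=
    fun i n => matF_prod T _ fun j _ => hT j
  have e1 : ∑ l ∈ addable 1 S, bt' v m (b + 1) (move 1 S l) S' =
      trF F (((List.range' 1 b).reverse.map T).prod * X 1) := by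
    have hs : Sh (opW v m (List.range (b + 1)).reverse)
        (((List.range' 1 b).reverse.map T).prod * X 1) := by
      rw [opW_range_rev]
      refine Sh.mul ?_ (Sh_Xop _ 0)
      have := Sh_prod (fun i => T i) (fun i => T (i + 1)) (List.range' 0 b).reverse
        fun i _ => Sh_Top v _ i
      have e : ((List.range' 1 b).reverse.map T).prod =
          ((List.range' 0 b).reverse.map fun i => T (i + 1)).prod := by
        rw [range'_one, ← List.map_reverse, List.map_map]
        rfl
      rw [e]; exact this
    rw [← trP_eq, trP_shift hs]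
    rfl
  have e2 : ∑ M ∈ ends (b + 1) S, bt' v m (b + 1) S M * ((paths 1 M S').card : K) =
      trF F (((List.range' 0 b).reverse.map T).prod * X 0) := by
    have hp : Pre (b + 1) (opW v m (List.range (b + 1)).reverse) := by
      rw [opW_range_rev]
      refine Pre.mul (Pre_prod _ _ fun i hi => Pre_Top v _ ?_) (Pre_Xop _ (by omega))
      rw [List.mem_reverse, List.mem_range'_1] at hi
      omega
    have := trP_prefix hp 1 S S'
    rw [opW_range_rev] at this
    rw [← trP_eq, this]
    unfold bt'
    rw [opW_range_rev]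
  have e3 : bt' v m (b + 1 + 1) S S' =
      trF F (((List.range' 0 (b + 1)).reverse.map T).prod * X 0) := by
    unfold bt'; rw [opW_range_rev, trP_eq]
  have e4 := tr_block_rev (R := Matrix F F K) Matrix.trace (fun a b => Matrix.trace_mul_comm a b)
    (fun i => matF F (T i)) (matF F (X 0)) (b + 1) (fun i hi => r1 i (by omega))
    (fun i j hij hj => r2 i j hij (by omega)) (fun j h1 h2 => r3 j h1 (by omega)) (by omega)
  rw [Nat.add_sub_cancel] at e4
  have e5 : trF F (((List.range' 1 b).reverse.map T).prod * X 1) =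
      Matrix.trace (((List.range' 1 b).reverse.map fun i => matF F (T i)).prod *
        (matF F (T 0) * matF F (X 0) * matF F (T 0))) := by
    rw [trF_eq, matF_mul (hX 1), (hdesc 1 b).2, r4 (by omega)]
  have hrev : ((List.range' 0 (b + 1)).reverse.map fun i => matF F (T i)).prod =
      matF F (T b) * ((List.range' 0 b).reverse.map fun i => matF F (T i)).prod := by
    rw [List.range'_concat, List.reverse_append, List.map_append, List.prod_append]
    simp
  have e6 : matF F (T b) * (((List.range' 0 (b + 1)).reverse.map fun i => matF F (T i)).prod *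
        matF F (X 0)) =
      (v - v⁻¹) • (((List.range' 0 (b + 1)).reverse.map fun i => matF F (T i)).prod *
        matF F (X 0)) + ((List.range' 0 b).reverse.map fun i => matF F (T i)).prod * matF F (X 0) := by
    rw [hrev, ← mul_assoc, ← mul_assoc, r5 b (by omega), add_mul, add_mul, one_mul, smul_mul_assoc,
      smul_mul_assoc]
  rw [e1, e2, e3, e5, e4, e6, Matrix.trace_add, Matrix.trace_smul, smul_eq_mul, trF_eq, trF_eq,
    matF_mul (hX 0), (hdesc 0 _).2, matF_mul (hX 0), (hdesc 0 b).2]
  ring

end rec

/-! ### comparison with the ribbon operators -/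

theorem cnt_one (S : St) (l : Lab) : cnt S l 1 = 0 := by
  unfold cnt
  rw [card_eq_zero, filter_eq_empty_iff]
  intro y _ h
  omega

theorem paths_one_card (M S' : St) :
    ((paths 1 M S').card : K) = Rib (fun _ => 1) 1 (Finsupp.single M (1 : K)) S' := by
  rw [Rib_single, Finsupp.finsetSum_apply]
  have h1 : paths 1 M S' = ((addable 1 M).filter fun l => move 1 M l = S').image fun l => [l] := by
    ext w
    rw [show (1 : ℕ) = 0 + 1 by rfl, mem_paths_succ]
    simp only [mem_paths_zero, mem_image, mem_filter]
    constructor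
    · rintro ⟨l, z, rfl, hl, rfl, h⟩; exact ⟨l, ⟨hl, h⟩, rfl⟩
    · rintro ⟨l, ⟨hl, h⟩, rfl⟩; exact ⟨l, [], rfl, hl, rfl, h⟩
  rw [h1, card_image_of_injective _ (fun a b h => (List.cons.inj h).1), card_filter]
  push_cast
  apply sum_congr rfl
  intro l _
  rw [cnt_one, Finsupp.single_apply]
  simp

/-- recursion of the ribbon side -/
theorem rib_rec {v : K} (hv : Generic v) (m a : ℕ) (ha : 1 ≤ a) (S S' : St) :
    (v - v⁻¹) * (v ^ a * Rib (xK v m) (a + 1) (Finsupp.single S 1) S') =
      (∑ l ∈ addable 1 S, v ^ (a - 1) * Rib (xK v m) a (Finsupp.single (move 1 S l) 1) S') -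
      (Rib (xK v m) a (Finsupp.single S 1)).sum fun M c =>
        v ^ (a - 1) * c * ((paths 1 M S').card : K) := by
  have hx := xK_ok hv m
  have h0 := hx.v0
  have h := CAR_gen (xK v m) (fun _ => (1 : K)) a 1 ha le_rfl
  have h2 := congrArg (fun φ : (St →₀ K) →ₗ[K] (St →₀ K) => φ (Finsupp.single S 1) S') h
  simp only [LinearMap.sub_apply, LinearMap.comp_apply, Finsupp.sub_apply, mul_one, one_mul] at h2
  have e1 : Rib (xK v m) a (Rib (fun _ => 1) 1 (Finsupp.single S 1)) S' =
      ∑ l ∈ addable 1 S, Rib (xK v m) a (Finsupp.single (move 1 S l) 1) S' := by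
    rw [Rib_single (fun _ => (1 : K)), map_sum, Finsupp.finsetSum_apply]
    apply sum_congr rfl
    intro l _
    rw [cnt_one]; simp
  have e2 : Rib (fun _ => (1 : K)) 1 (Rib (xK v m) a (Finsupp.single S 1)) S' =
      (Rib (xK v m) a (Finsupp.single S 1)).sum fun M c => c * ((paths 1 M S').card : K) := by
    conv_lhs => rw [← Finsupp.sum_single (Rib (xK v m) a (Finsupp.single S 1))]
    rw [map_finsuppSum, Finsupp.sum_apply]
    apply Finsupp.sum_congr
    intro M _
    rw [paths_one_card]
    rw [show (Finsupp.single M ((Rib (xK v m) a (Finsupp.single S 1)) M) : St →₀ K) =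
      ((Rib (xK v m) a (Finsupp.single S 1)) M) • Finsupp.single M 1 by
        rw [Finsupp.smul_single, smul_eq_mul, mul_one], map_smul, Finsupp.smul_apply, smul_eq_mul]
  have e3 : (fun l => xK v m (up 1 l) - xK v m l) = fun l => (v ^ 2 - 1) * xK v m l := by
    funext l; rw [hx.up]; ring
  have e4 : ∀ (c : K) (w : Lab → K) (b : ℕ), Rib (fun l => c * w l) b (Finsupp.single S 1) S' =
      c * Rib w b (Finsupp.single S 1) S' := by
    intro c w b
    rw [Rib_single, Rib_single, Finsupp.finsetSum_apply, Finsupp.finsetSum_apply, mul_sum]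
    apply sum_congr rfl
    intro l _
    rw [Finsupp.single_apply, Finsupp.single_apply]
    split_ifs <;> ring
  rw [e1, e2, e3, e4] at h2
  have e5 : ∀ c : K, (Rib (xK v m) a (Finsupp.single S 1)).sum (fun M d =>
      c * d * ((paths 1 M S').card : K)) = c * (Rib (xK v m) a (Finsupp.single S 1)).sum (fun M d =>
      d * ((paths 1 M S').card : K)) := by
    intro c
    rw [Finsupp.mul_sum]
    simp only [mul_assoc]
  rw [e5, ← mul_sum, ← mul_sub, h2]
  obtain ⟨b, rfl⟩ : ∃ b, a = b + 1 := ⟨a - 1, by omega⟩
  rw [Nat.add_sub_cancel, pow_succ]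
  field_simp

theorem RR : RR_stmt := by
  intro K _ v hv m a S S' ha
  have hx := xK_ok hv m
  have h0 := hx.v0
  have hc : v - v⁻¹ ≠ 0 := by
    intro h
    apply hx.v2
    have : v * (v - v⁻¹) = 0 := by rw [h, mul_zero]
    rw [mul_sub, mul_inv_cancel₀ h0] at this
    linear_combination this
  have base : ∀ S S', bt v m 1 S S' = Rib (xK v m) 1 (Finsupp.single S 1) S' ∧
      bt' v m 1 S S' = Rib (xK v m) 1 (Finsupp.single S 1) S' := by
    intro S S'
    have key : trP 1 S S' (Xop (xK v m) 0) = Rib (xK v m) 1 (Finsupp.single S 1) S' := by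
      rw [Rib_single, Finsupp.finsetSum_apply]
      unfold trP
      rw [show (1 : ℕ) = 0 + 1 by rfl, paths, sum_biUnion]
      · apply sum_congr rfl
        intro l _
        rw [sum_image (fun z _ z' _ h => (List.cons.inj h).2), paths, cnt_one, Finsupp.single_apply]
        split_ifs with h
        · rw [sum_singleton, Xop_single]; simp
        · simp
      · intro l _ l' _ hne
        rw [Function.onFun, Finset.disjoint_left]
        intro w hw hw'
        rw [mem_image] at hw hw'
        obtain ⟨z, _, rfl⟩ := hw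
        obtain ⟨z', _, h'⟩ := hw'
        exact hne (List.cons.inj h').1.symm
    have e1 : opW v m (List.range 1) = Xop (xK v m) 0 := by
      unfold opW; simp [List.range_succ]; rfl
    have e2 : opW v m (List.range 1).reverse = Xop (xK v m) 0 := by
      unfold opW; simp [List.range_succ]; rfl
    unfold bt bt'
    rw [e1, e2]
    exact ⟨key, key⟩
  have ind : ∀ b, 1 ≤ b → ∀ S S', bt v m b S S' = v ^ (b - 1) * Rib (xK v m) b (Finsupp.single S 1) S' ∧
      bt' v m b S S' = v ^ (b - 1) * Rib (xK v m) b (Finsupp.single S 1) S' := by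
    intro b hb
    induction b, hb using Nat.le_induction with
    | base =>
      intro S S'
      rw [Nat.sub_self, pow_zero, one_mul]; exact base S S'
    | succ b hb ih =>
      intro S S'
      rw [Nat.add_sub_cancel]
      have hsum : ∀ f : St → K, (∀ M, f M = v ^ (b - 1) * Rib (xK v m) b (Finsupp.single S 1) M) →
          (∀ M, M ∉ ends b S → f M = 0) →
          ∑ M ∈ ends b S, f M * ((paths 1 M S').card : K) =
          (Rib (xK v m) b (Finsupp.single S 1)).sum fun M c =>
            v ^ (b - 1) * c * ((paths 1 M S').card : K) := by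
        intro f h1 h2
        unfold Finsupp.sum
        simp only [← h1]
        symm
        apply sum_subset
        · intro M hM
          by_contra h3
          have h4 := h2 M h3
          rw [h1] at h4
          rcases mul_eq_zero.1 h4 with h5 | h5
          · exact pow_ne_zero _ h0 h5
          · exact (Finsupp.mem_support_iff.1 hM) h5
        · intro M _ hM
          rw [h1, Finsupp.notMem_support_iff.1 hM]; simp
      have hz : ∀ (φ : Module.End K (List Lab →₀ K)) M, M ∉ ends b S → trP b S M φ = 0 := by
        intro φ M hM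
        unfold trP
        apply sum_eq_zero
        intro w hw
        exact absurd (end_mem_ends hw) hM
      have hr := rib_rec hv m b hb S S'
      constructor
      · apply mul_left_cancel₀ hc
        rw [bt_rec hv m b S S' hb, hr, hsum (fun M => bt v m b S M) (fun M => (ih S M).1)
          fun M hM => hz _ M hM]
        congr 1
        exact sum_congr rfl fun l _ => (ih _ S').1
      · apply mul_left_cancel₀ hc
        rw [bt'_rec hv m b S S' hb, hr, hsum (fun M => bt' v m b S M) (fun M => (ih S M).2)
          fun M hM => hz _ M hM]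
        congr 1
        exact sum_congr rfl fun l _ => (ih _ S').2
  exact ind a ha S S'

end trace

end Pool.Agent.helper27.PC
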