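import Pool.Agent.helper64.PC.SpecR

/-!
# Row RSB of project pc (MP_069684_lc, owner helper64)
-/

set_option autoImplicit false

namespace Pool.Agent.PC

open Pool.Agent.PB

theorem RSB_prog (m m' N N' : ℕ) (σ : Fin N → Fin N') (hm : m ≤ m')
    (l : List ((Fin N → Bool) → ℝ)) (h : RProg m N l) :
    RProg m' N' (l.map fun v x => v fun i => x (σ i)) := by
  induction h with
  | nil => exact RProg.nil
  | step l d φ a hl hd hφ ha ih =>
    refine RProg.step _ d φ (fun i x => a i fun j => x (σ j)) ih (hd.trans hm) hφ (fun i => ?_)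
    rcases ha i with h | ⟨j, hj⟩
    · left
      exact List.mem_map_of_mem h
    · right
      refine ⟨σ j, ?_⟩
      simp only [hj]

theorem RSB : RSB_stmt := by
  intro m m' N N' h σ s hm hs
  obtain ⟨l, hl, hlen, v, hv, τ, hτ⟩ := hs
  refine ⟨l.map fun v x => v fun i => x (σ i), RSB_prog m m' N N' σ hm l hl, ?_,
    fun x => v fun i => x (σ i), ?_, τ, ?_⟩
  · rw [List.length_map]
    exact hlen
  · rcases hv with hv | ⟨j, hj⟩
    · left
      exact List.mem_map_of_mem hv
    · right
      refine ⟨σ j, ?_⟩
      simp only [hj]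
  · intro x
    exact hτ _

end Pool.Agent.PC
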