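import Pool.Agent.helper64.PC.SpecV
import Pool.Agent.helper13.PB.RST

set_option autoImplicit false

namespace Pool.Agent.PC

open Pool.Agent.PB

theorem RSM (hSUB : SUB_stmt) : RSM_stmt := by
  intro B hf ht m n u s φ hφ hu
  exact RST_aux hSUB B hf ht m n u s φ hφ hu

end Pool.Agent.PC
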