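import Pool.Agent.helper27.PC.Defs

/-!
# PC project: statements of the modules
-/

namespace Pool.Agent.helper27.PC

open Module Polynomial

/-! ## Group part -/

/-- the simple reflections generate `W(B_n)` -/
def GEN_stmt : Prop := ∀ (n : ℕ) (w : W n), ∃ l : List (Fin n), (l.map (gen n)).prod = w

/-- the standard word is reduced and the standard element has minimal length in its class -/
def LEN_stmt : Prop := ∀ (n : ℕ) (l : List ℕ), Part n l →
  len (std n l) = (stdWord 0 l).length ∧ IsMinLen (std n l)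

/-- the number of signed permutations -/
def CARD_stmt : Prop := ∀ n : ℕ, Nat.card (W n) = 2 ^ n * n.factorial

/-- the generators `T_{s_i}` of the Hecke algebra satisfy the relations of type `B_n` -/
def HREL_stmt : Prop := ∀ (n : ℕ) (H : Type) [Ring H] [Algebra A H] (T : Basis (W n) A H),
  IsHecke n T → RelB (v - vi) n fun i => T (g n i)

/-- `T_w` along a reduced word -/
def TW_stmt : Prop := ∀ (n : ℕ) (H : Type) [Ring H] [Algebra A H] (T : Basis (W n) A H),
  IsHecke n T → T 1 = 1 ∧ ∀ l : List ℕ, (∀ i ∈ l, i < n) → len ((l.map (g n)).prod) = l.length →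
    T ((l.map (g n)).prod) = (l.map fun i => T (g n i)).prod

/-! ## Algebra part -/

/-- an algebra generated by elements with the relations of type `B_n` has dimension at most `2^n n!` -/
def DIM_stmt : Prop := ∀ (K R : Type) [Field K] [Ring R] [Algebra K R] (c : K) (n : ℕ) (τ : ℕ → R),
  RelB c n τ → Module.Finite K (Algebra.adjoin K (τ '' {i | i < n})) ∧
    Module.finrank K (Algebra.adjoin K (τ '' {i | i < n})) ≤ 2 ^ n * n.factorial

/-! ## Words -/

/-- number of pairs of words with the same end -/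
def CNT_stmt : Prop := ∀ n m : ℕ, n ≤ m →
  ∑ S ∈ ends n (vac m), (paths n (vac m) S).card ^ 2 = 2 ^ n * n.factorial

/-- the seminormal matrices satisfy the relations of type `B_n` -/
def REP_stmt : Prop := ∀ (K : Type) [Field K] (v : K), Generic v → ∀ n m : ℕ, 1 ≤ n → n ≤ m →
  RelB (v - v⁻¹) n (fun i => mat n (vac m) (op v m i)) ∧
  ∀ l : List ℕ, (∀ i ∈ l, i < n) →
    mat n (vac m) (opW v m l) = (l.map fun i => mat n (vac m) (op v m i)).prod

/-- the seminormal matrices generate the algebra of all block matrices -/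
def SURJ_stmt : Prop := ∀ (K : Type) [Field K] (v : K), Generic v → ∀ n m : ℕ, 1 ≤ n → n ≤ m →
  ∀ M : Matrix (allPaths n (vac m)) (allPaths n (vac m)) K,
    (∀ w w', (∀ S, ¬ (w.1 ∈ paths n (vac m) S ∧ w'.1 ∈ paths n (vac m) S)) → M w w' = 0) →
    M ∈ Algebra.adjoin K ((fun i => mat n (vac m) (op v m i)) '' {i | i < n})

/-- trace formula -/
def TR_stmt : Prop := ∀ (n : ℕ) (H : Type) [Ring H] [Algebra A H] (T : Basis (W n) A H),
  IsHecke n T → 1 ≤ n → ∀ (K : Type) [Field K] [Algebra A K], Function.Injective (algebraMap A K) →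
  ∀ l₁ l₂ : List ℕ, (∀ i ∈ l₁, i < n) → (∀ i ∈ l₂, i < n) →
  algebraMap A K (LinearMap.trace A H (LinearMap.mulLeft A ((l₁.map fun i => T (g n i)).prod) ∘ₗ
      LinearMap.mulRight A ((l₂.map fun i => T (g n i)).prod))) =
    ∑ S ∈ ends n (vac n), trP n (vac n) S (opW (algebraMap A K v) n l₁) *
      trP n (vac n) S (opW (algebraMap A K v) n l₂)

/-! ## Ribbons -/

/-- the ribbon rule for one block -/
def RR_stmt : Prop := ∀ (K : Type) [Field K] (v : K), Generic v → ∀ (m a : ℕ) (S S' : St), 1 ≤ a →
  trP a S S' (opW v m (List.range a)) = v ^ (a - 1) * Rib (xK v m) a (Finsupp.single S 1) S' ∧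
  trP a S S' (opW v m (List.range a).reverse) = v ^ (a - 1) * Rib (xK v m) a (Finsupp.single S 1) S'

/-- the character values of the standard elements -/
def CH_stmt : Prop := ∀ (K : Type) [Field K] (v : K), Generic v → ∀ (n : ℕ) (l : List ℕ), Part n l →
  ∀ S' : St,
  v ^ (stdWord 0 l).length * trP n (vac n) S' (opW v n (stdWord 0 l)) =
    (vec n l S').eval₂ (Int.castRingHom K) (v ^ 2) ∧
  v ^ (stdWord 0 l).length * trP n (vac n) S' (opW v n (stdWord 0 l).reverse) =
    (vec n l S').eval₂ (Int.castRingHom K) (v ^ 2)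

/-- the formula for `N_C` -/
def NF_stmt : Prop := ∀ (n : ℕ) (H : Type) [Ring H] [Algebra A H] (T : Basis (W n) A H),
  IsHecke n T → ∀ l : List ℕ, 1 ≤ n → Part n l → N T (std n l) = aeval (v ^ 2) (P n l)

/-- commutator of two ribbon operators -/
def CAR_stmt : Prop := ∀ (R : Type) [CommRing R] (x y : Lab → R) (a b : ℕ), 1 ≤ a → 1 ≤ b →
  Rib x a ∘ₗ Rib y b - Rib y b ∘ₗ Rib x a = Rib (fun l => x (up b l) * y l - y (up a l) * x l) (a + b)

/-- super-decreasing: every part is larger than the sum of the smaller parts (or equal to the previous ones) -/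
def SuperDecreasing (l : List ℕ) : Prop := ∀ a ∈ l, (l.filter (· < a)).sum < a

/-- positivity for super-decreasing types -/
def SD_stmt : Prop := ∀ (n : ℕ) (l : List ℕ), Part n l → SuperDecreasing l → ∀ k, 0 ≤ (P n l).coeff k

end Pool.Agent.helper27.PC
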