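import Pool.Agent.helper64.PC.SpecE
import Pool.Agent.helper71.PB.TRB

set_option autoImplicit false

namespace Pool.Agent.PC

open Pool.Agent.PB

theorem TRP (hSUB : SUB_stmt) : TRP_stmt := by
  intro G d hG r n f s hs
  obtain ⟨L, hL, hlen, hf⟩ := hs
  obtain ⟨l, hl, hlen', hav⟩ := TRB_prog hSUB std (upTo G r) (r ^ d + d) (fun g hg =>
    Size.mono_size (Nat.add_le_add_right (Nat.pow_le_pow_left hg.2 d) d) (hG g hg.1)) n L hL
  refine ⟨l, hl, hlen'.trans ?_, ?_⟩
  · rw [mul_comm]
    exact Nat.mul_le_mul_right _ hlen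
  · rcases hf with h | h
    · exact hav f h
    · exact Or.inr h

end Pool.Agent.PC
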