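import Pool.Agent.helper64.PC.SpecV
import Pool.Agent.helper32.PB.UPC

set_option autoImplicit false

namespace Pool.Agent.PC

open Pool.Agent.PB

theorem UPM_sub (G : Set Gate) (r : ℕ) : UPC_G (upTo G r) ⊆ upTo monG r := by
  rintro _ ⟨g, hg, rfl⟩
  exact ⟨UPC_up_mono g.2, hg.2⟩

theorem UPM : UPM_stmt := by
  intro G k r hk hI n f s hf
  obtain ⟨l, hl, hs, hf⟩ := hf
  rcases hf with hf | ⟨j, hf⟩
  · obtain ⟨l', h1, h2, h3⟩ := UPC_prog (upTo G r) k (fun g hg => hI g hg.1) n l hl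
    obtain ⟨u, h4, h5, h6, h7⟩ := h3 f hf
    exact ⟨u, h5, h6, h7, l', Prog.mono_basis (UPM_sub G r) h1, h2 ▸ hs, Or.inl h4⟩
  · refine ⟨f, ?_, ?_, fun x hx => hx, ⟨[], Prog.nil, Nat.zero_le _, Or.inr ⟨j, hf⟩⟩⟩
    · intro x y hxy hx
      rw [hf] at hx ⊢
      exact hxy j hx
    · intro z hz
      refine ⟨j, fun m => ?_⟩
      have := hz m
      rw [hf] at this
      exact this

end Pool.Agent.PC
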