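import Pool.Agent.helper64.PC.SpecV
import Pool.Agent.helper27.PB.WIN

set_option autoImplicit false

namespace Pool.Agent.PC

open Pool.Agent.PB

theorem WIM (hUPM : UPM_stmt) (hRSM : RSM_stmt) (hS12 : S12_stmt) (hHIN : HIN_stmt)
    (hHLO : HLO_stmt) (hHUP : HUP_stmt) (hMXK : MXK_stmt) (hNMI : NMI_stmt) (hTKI : TKI_stmt) :
    WIM_stmt := by
  intro G hnm hgap
  obtain ⟨K, hK, hint, hnint⟩ := hMXK G hgap
  obtain ⟨k, rfl⟩ : ∃ k, K = k + 2 := ⟨K - 2, by omega⟩
  obtain ⟨hA, hM⟩ := hNMI G (fun g hg => WIN_inter (hint g hg)) hnm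
  have hT := hTKI G (k + 2) hK hint hnint hA hM
  obtain ⟨c₂, hc₂⟩ := hHUP k
  refine ⟨c₂ + 2 * k + 5, ?_⟩
  intro n h hn hmono
  obtain ⟨hI, h1⟩ := hHIN k n h hmono
  refine ⟨(k + 1) * n + (k + 2), by omega, ?_, fH k n h, ?_, ?_, ?_⟩
  · nlinarith
  · exact hS12 G (k + 2) hK hM hT _ _ hI h1
  · intro s hs
    refine WIN_mono (hc₂ n h hn s hs) (Nat.mul_le_mul_right _ ?_)
    omega
  · intro r s hs
    obtain ⟨u, hu1, hu2, hu3, hu4⟩ := hUPM G (k + 2) r (by omega) hint _ _ s hs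
    have hlo := hHLO k n h u hu2 hu3
    have hr := hRSM (upTo monG r) (gConst_mem_monG false r) (gConst_mem_monG true r) _ n u s
      (fun i => fun x : Fin n → Bool =>
      (Sum.elim (fun p : Fin (k + 1) × Fin n => x p.2) fun m => !(decide (m = Fin.last (k + 1))))
      ((eH k n).symm i)) ?_ hu4
    · have he : (fun x : Fin n → Bool => u fun i => (Sum.elim (fun p : Fin (k + 1) × Fin n => x p.2)
          fun m => !(decide (m = Fin.last (k + 1)))) ((eH k n).symm i)) = h := funext hlo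
      rw [he] at hr
      exact hr
    · intro i
      rcases hi : (eH k n).symm i with p | m
      · left
        exact ⟨p.2, rfl⟩
      · right
        exact ⟨!(decide (m = Fin.last (k + 1))), rfl⟩

end Pool.Agent.PC
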