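import Pool.Agent.helper64.PC.SpecV
import Pool.Agent.helper82.PB.WMJ

set_option autoImplicit false

namespace Pool.Agent.PC

open Pool.Agent.PB

theorem WMM (hRSM : RSM_stmt) (hSDG : SDG_stmt) (hCMP : CMP_stmt) (hDNF : DNF_stmt) :
    WMM_stmt := by
  intro G hM hMaj
  obtain ⟨c0, hc0⟩ := hDNF.1 4 WMJ_F
  obtain ⟨c1, hc1⟩ := hDNF.1 1 fNot
  refine ⟨c0 + 2 * c1 + 5, fun n h hn hh => ?_⟩
  have hn2 : n + 2 ≤ (c0 + 2 * c1 + 5) * n := by nlinarith
  refine ⟨n + 2, by omega, hn2, WMJ_f h, hSDG G hMaj (n + 2) (by omega) _ (WMJ_mono hh)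
    (WMJ_selfDual h), fun s hs => ?_, fun r s hs => ?_⟩
  · have e2 : Size std (fun z : Fin (n + 2) → Bool => h fun j => z (Fin.castAdd 2 j)) s := by
      have := hCMP std n (n + 2) h (fun j => fun z => z (Fin.castAdd 2 j)) s (fun _ => 0) hs
        (fun j => WMJ_var std (n + 2) (Fin.castAdd 2 j))
      exact WMJ_le this (by simp)
    have e3 : ∀ j : Fin n, Size std (fun z : Fin (n + 2) → Bool => !(z (Fin.castAdd 2 j))) c1 := by
      intro j
      have := hCMP std 1 (n + 2) fNot (fun _ => fun z => z (Fin.castAdd 2 j)) c1 (fun _ => 0) hc1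
        (fun _ => WMJ_var std (n + 2) (Fin.castAdd 2 j))
      exact WMJ_le this (by simp)
    have e4 : Size std (fun z : Fin (n + 2) → Bool => h fun j => !(z (Fin.castAdd 2 j)))
        (s + n * c1) := by
      have := hCMP std n (n + 2) h (fun j => fun z => !(z (Fin.castAdd 2 j))) s (fun _ => c1) hs e3
      exact WMJ_le this (by simp)
    have e5 : Size std (fun z : Fin (n + 2) → Bool => !(h fun j => !(z (Fin.castAdd 2 j))))
        (c1 + (s + n * c1)) := by
      have := hCMP std 1 (n + 2) fNot (fun _ => fun z => h fun j => !(z (Fin.castAdd 2 j))) c1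
        (fun _ => s + n * c1) hc1 (fun _ => e4)
      exact WMJ_le this (by simp)
    have e6 := hCMP std 4 (n + 2) WMJ_F (WMJ_arg h) c0 ![0, 0, s, c1 + (s + n * c1)] hc0
      (fun i => by
        fin_cases i
        · exact WMJ_var std (n + 2) (Fin.natAdd n 0)
        · exact WMJ_var std (n + 2) (Fin.natAdd n 1)
        · exact e2
        · exact e5)
    refine WMJ_le e6 ?_
    have h7 : ∑ i, (![0, 0, s, c1 + (s + n * c1)] : Fin 4 → ℕ) i = s + (c1 + (s + n * c1)) := by
      simp [Fin.sum_univ_four]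
    rw [h7]
    nlinarith [Nat.zero_le (c0 * s),
      Nat.zero_le (c1 * s), Nat.mul_le_mul_left c0 hn, Nat.mul_le_mul_left c1 hn]
  · have hsub : upTo G r ⊆ upTo monG r := fun g hg => ⟨hM g hg.1, hg.2⟩
    have e1 := Size.mono_basis hsub hs
    have e2 := hRSM (upTo monG r) (gConst_mem_monG false r) (gConst_mem_monG true r) (n + 2) n
      (WMJ_f h) s (fun i =>
      (Fin.addCases (fun j => fun x : Fin n → Bool => x j)
        (fun k : Fin 2 => fC (decide (k = 0)) n) i : BF n)) (fun i => by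
        refine Fin.addCases (fun j => ?_) (fun k => ?_) i
        · rw [Fin.addCases_left]; exact Or.inl ⟨j, rfl⟩
        · rw [Fin.addCases_right]; exact Or.inr ⟨_, rfl⟩) e1
    rw [WMJ_res] at e2
    exact e2

end Pool.Agent.PC
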