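import Pool.Agent.helper27.PC.Stmt

/-!
# PC project: words, seminormal operators and their relations
-/

namespace Pool.Agent.helper27.PC

open Module Finset

/-! ## Words -/

theorem up_inj {a : ℕ} {l l' : Lab} (h : up a l = up a l') : l = l' := by
  unfold up at h
  rw [Prod.mk.injEq] at h
  exact Prod.ext h.1 (Nat.add_right_cancel h.2)

theorem up_one_ne (l : Lab) : up 1 l ≠ l := by
  intro h
  have := congrArg Prod.snd h
  simp only [up] at this
  omega

theorem mem_addable {a : ℕ} {S : St} {l : Lab} : l ∈ addable a S ↔ l ∈ S ∧ up a l ∉ S := by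
  unfold addable; rw [mem_filter]

theorem mem_move {a : ℕ} {S : St} {l y : Lab} : y ∈ move a S l ↔ y = up a l ∨ (y ≠ l ∧ y ∈ S) := by
  unfold move; rw [mem_insert, mem_erase]

theorem mem_paths_zero {S S' : St} {w : List Lab} : w ∈ paths 0 S S' ↔ w = [] ∧ S = S' := by
  unfold paths
  split_ifs with h <;> simp [h]

theorem mem_paths_succ {n : ℕ} {S S' : St} {w : List Lab} :
    w ∈ paths (n + 1) S S' ↔ ∃ l z, w = l :: z ∧ l ∈ addable 1 S ∧ z ∈ paths n (move 1 S l) S' := by
  rw [paths]
  simp only [mem_biUnion, mem_image]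
  constructor
  · rintro ⟨l, hl, z, hz, rfl⟩; exact ⟨l, z, rfl, hl, hz⟩
  · rintro ⟨l, z, rfl, hl, hz⟩; exact ⟨l, hl, z, hz, rfl⟩

theorem mem_paths_cons {n : ℕ} {S S' : St} {l : Lab} {z : List Lab} :
    l :: z ∈ paths (n + 1) S S' ↔ l ∈ addable 1 S ∧ z ∈ paths n (move 1 S l) S' := by
  rw [mem_paths_succ]
  constructor
  · rintro ⟨l', z', h, h1, h2⟩
    rw [List.cons.injEq] at h
    obtain ⟨rfl, rfl⟩ := h
    exact ⟨h1, h2⟩
  · rintro ⟨h1, h2⟩; exact ⟨l, z, rfl, h1, h2⟩

theorem length_of_mem_paths {n : ℕ} {S S' : St} {w : List Lab} (h : w ∈ paths n S S') :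
    w.length = n := by
  induction n generalizing S w with
  | zero => rw [mem_paths_zero] at h; rw [h.1]; rfl
  | succ n ih =>
    rw [mem_paths_succ] at h
    obtain ⟨l, z, rfl, -, hz⟩ := h
    rw [List.length_cons, ih hz]

theorem mem_paths_append {n k : ℕ} {S S' : St} {p z : List Lab} (hp : p.length = n) :
    p ++ z ∈ paths (n + k) S S' ↔ ∃ M, p ∈ paths n S M ∧ z ∈ paths k M S' := by
  induction n generalizing S p with
  | zero =>
    rw [List.length_eq_zero_iff] at hp
    subst hp
    simp only [List.nil_append, Nat.zero_add]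
    constructor
    · intro h; exact ⟨S, by rw [mem_paths_zero]; simp, h⟩
    · rintro ⟨M, h1, h2⟩
      rw [mem_paths_zero] at h1
      rw [h1.2]; exact h2
  | succ n ih =>
    obtain ⟨l, q, rfl⟩ : ∃ l q, p = l :: q := by
      cases p with
      | nil => simp at hp
      | cons l q => exact ⟨l, q, rfl⟩
    rw [List.length_cons, Nat.add_right_cancel_iff] at hp
    rw [List.cons_append, show n + 1 + k = n + k + 1 by ring, mem_paths_cons, ih hp]
    constructor
    · rintro ⟨h1, M, h2, h3⟩
      exact ⟨M, mem_paths_cons.2 ⟨h1, h2⟩, h3⟩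
    · rintro ⟨M, h1, h2⟩
      rw [mem_paths_cons] at h1
      exact ⟨h1.1, M, h1.2, h2⟩

/-- two consecutive moves are different -/
theorem ne_of_addable {S : St} {a b : Lab} (hb : b ∈ addable 1 (move 1 S a)) : a ≠ b := by
  intro h
  subst h
  rw [mem_addable, mem_move] at hb
  rcases hb.1 with h | h
  · exact up_one_ne a h.symm
  · exact h.1 rfl

/-- a move is different from the next but one -/
theorem ne_of_addable₂ {S : St} {a b c : Lab} (hb : b ∈ addable 1 (move 1 S a))
    (hc : c ∈ addable 1 (move 1 (move 1 S a) b)) : a ≠ c := by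
  intro h
  subst h
  rw [mem_addable, mem_move] at hc
  have h2 := hc.2
  rw [mem_move] at h2
  push Not at h2
  have hab := ne_of_addable hb
  rcases hc.1 with h | h
  · -- a = up 1 b
    have h3 : up 1 a ≠ b := by
      intro e
      rw [← e] at h
      have := congrArg Prod.snd h
      simp only [up] at this
      omega
    exact h2.2 h3 (mem_move.2 (Or.inl rfl))
  · rw [mem_move] at h
    rcases h.2 with h | h
    · exact up_one_ne a h.symm
    · exact h.1 rfl

/-- non adjacent moves can be exchanged -/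
theorem swap_addable {S : St} {a b : Lab} (ha : a ∈ addable 1 S) (hb : b ∈ addable 1 (move 1 S a))
    (h1 : b ≠ up 1 a) (h2 : a ≠ up 1 b) :
    b ∈ addable 1 S ∧ a ∈ addable 1 (move 1 S b) ∧ move 1 (move 1 S a) b = move 1 (move 1 S b) a := by
  have hab := ne_of_addable hb
  rw [mem_addable] at ha
  rw [mem_addable, mem_move, mem_move] at hb
  have hbS : b ∈ S := by
    rcases hb.1 with h | h
    · exact absurd h h1
    · exact h.2
  have hb2 : up 1 b ∉ S := by
    intro h
    apply hb.2
    exact Or.inr ⟨fun e => h2 e.symm, h⟩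
  refine ⟨mem_addable.2 ⟨hbS, hb2⟩, mem_addable.2 ⟨mem_move.2 (Or.inr ⟨hab, ha.1⟩), ?_⟩, ?_⟩
  · rw [mem_move]
    rintro (h | h)
    · exact hab (up_inj h)
    · exact ha.2 h.2
  · ext y
    simp only [mem_move]
    have e1 : up 1 a ≠ b := fun e => h1 e.symm
    have e2 : up 1 b ≠ a := fun e => h2 e.symm
    constructor
    · rintro (h | ⟨h, h' | ⟨h', h''⟩⟩)
      · subst h; exact Or.inr ⟨e2, Or.inl rfl⟩
      · exact Or.inl h'
      · exact Or.inr ⟨h', Or.inr ⟨h, h''⟩⟩
    · rintro (h | ⟨h, h' | ⟨h', h''⟩⟩)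
      · subst h; exact Or.inr ⟨e1, Or.inl rfl⟩
      · exact Or.inl h'
      · exact Or.inr ⟨h', Or.inr ⟨h, h''⟩⟩

theorem exists_split₂ {i : ℕ} {w : List Lab} (h : i + 1 < w.length) :
    ∃ p a b z, w = p ++ a :: b :: z ∧ p.length = i := by
  induction i generalizing w with
  | zero =>
    match w, h with
    | a :: b :: z, _ => exact ⟨[], a, b, z, rfl, rfl⟩
  | succ i ih =>
    match w, h with
    | c :: w, h =>
      obtain ⟨p, a, b, z, h1, h2⟩ := ih (w := w) (by simpa using h)
      exact ⟨c :: p, a, b, z, by rw [h1]; rfl, by simp [h2]⟩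

theorem exists_split₃ {i : ℕ} {w : List Lab} (h : i + 2 < w.length) :
    ∃ p a b c z, w = p ++ a :: b :: c :: z ∧ p.length = i := by
  obtain ⟨p, a, b, z, h1, h2⟩ := exists_split₂ (i := i) (w := w) (by omega)
  match z, h1 with
  | [], h1 => subst h1; simp at h; omega
  | c :: z, h1 => exact ⟨p, a, b, c, z, h1, h2⟩

/-- letters inside a valid word -/
theorem mem_split₂ {n : ℕ} {S S' : St} {p z : List Lab} {a b : Lab}
    (h : p ++ a :: b :: z ∈ paths n S S') :
    a ≠ b ∧ (b ≠ up 1 a → a ≠ up 1 b → p ++ b :: a :: z ∈ paths n S S') := by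
  have hn := length_of_mem_paths h
  obtain ⟨k, rfl⟩ : ∃ k, n = p.length + (k + 1 + 1) := ⟨z.length, by rw [← hn]; simp⟩
  rw [mem_paths_append rfl] at h
  obtain ⟨M, h1, h2⟩ := h
  rw [mem_paths_cons, mem_paths_cons] at h2
  refine ⟨ne_of_addable h2.2.1, fun h3 h4 => ?_⟩
  rw [mem_paths_append rfl]
  obtain ⟨e1, e2, e3⟩ := swap_addable h2.1 h2.2.1 h3 h4
  refine ⟨M, h1, ?_⟩
  rw [mem_paths_cons, mem_paths_cons, ← e3]
  exact ⟨e1, e2, h2.2.2⟩

theorem mem_split₃ {n : ℕ} {S S' : St} {p z : List Lab} {a b c : Lab}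
    (h : p ++ a :: b :: c :: z ∈ paths n S S') : a ≠ b ∧ a ≠ c ∧ b ≠ c := by
  have hn := length_of_mem_paths h
  obtain ⟨k, rfl⟩ : ∃ k, n = p.length + (k + 1 + 1 + 1) := ⟨z.length, by rw [← hn]; simp⟩
  rw [mem_paths_append rfl] at h
  obtain ⟨M, h1, h2⟩ := h
  rw [mem_paths_cons, mem_paths_cons, mem_paths_cons] at h2
  exact ⟨ne_of_addable h2.2.1, ne_of_addable₂ h2.2.1 h2.2.2.1, ne_of_addable h2.2.2.1⟩

/-! ## The coefficients -/

/-- what is needed of the values `x` -/
structure XOK {K : Type*} [Field K] (v : K) (x : Lab → K) : Prop where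
  v0 : v ≠ 0
  v2 : v ^ 2 ≠ 1
  vm : v ^ 2 ≠ -1
  ne : ∀ l, x l ≠ 0
  inj : Function.Injective x
  up : ∀ l, x (up 1 l) = v ^ 2 * x l

section coeff

variable {K : Type*} [Field K] {v : K} {x : Lab → K}

theorem xK_ok {v : K} (hv : Generic v) (m : ℕ) : XOK v (xK v m) := by
  obtain ⟨h0, h1, h2⟩ := hv
  have h1' : ∀ k : ℤ, v ^ k ≠ -1 := h1
  refine ⟨h0, ?_, ?_, ?_, ?_, ?_⟩
  · have := h2 2 (by norm_num)
    simpa using this
  · have := h1 2
    simpa using this
  · intro l
    unfold xK
    refine mul_ne_zero ?_ (zpow_ne_zero _ h0)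
    split_ifs
    · exact h0
    · exact neg_ne_zero.2 (inv_ne_zero h0)
  · rintro ⟨b, p⟩ ⟨b', p'⟩ h
    unfold xK at h
    have hz : ∀ k : ℤ, v ^ k ≠ 0 := fun k => zpow_ne_zero _ h0
    have same : ∀ s : K, s ≠ 0 → s * v ^ (2 * ((p : ℤ) + 1 - m)) = s * v ^ (2 * ((p' : ℤ) + 1 - m)) →
        p = p' := by
      intro s hs h
      have h3 := mul_left_cancel₀ hs h
      by_contra hne
      apply h2 (2 * ((p : ℤ) + 1 - m) - 2 * ((p' : ℤ) + 1 - m)) (by omega)
      rw [zpow_sub₀ h0, h3, div_self (hz _)]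
    have diff : ∀ p p' : ℕ, v * v ^ (2 * ((p : ℤ) + 1 - m)) ≠ - v⁻¹ * v ^ (2 * ((p' : ℤ) + 1 - m)) := by
      intro p p' h
      apply h1 (2 * ((p : ℤ) + 1 - m) - 2 * ((p' : ℤ) + 1 - m) + 2)
      rw [zpow_add₀ h0, zpow_sub₀ h0]
      have h4 : v ^ (2 : ℤ) = v ^ 2 := by norm_cast
      rw [h4]
      have h5 : v ^ (2 * ((p : ℤ) + 1 - m)) * v ^ 2 = - v ^ (2 * ((p' : ℤ) + 1 - m)) := by
        have h6 : v * (v * v ^ (2 * ((p : ℤ) + 1 - m))) =
            v * (- v⁻¹ * v ^ (2 * ((p' : ℤ) + 1 - m))) := by rw [h]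
        have h7 : v * (- v⁻¹ * v ^ (2 * ((p' : ℤ) + 1 - m))) = - v ^ (2 * ((p' : ℤ) + 1 - m)) := by
          rw [← mul_assoc, mul_neg, mul_inv_cancel₀ h0]; ring
        rw [← h7, ← h6]; ring
      rw [div_mul_eq_mul_div, h5, neg_div, div_self (hz _)]
    cases b <;> cases b' <;> simp only [Bool.false_eq_true, if_true, if_false] at h
    · rw [same _ (neg_ne_zero.2 (inv_ne_zero h0)) h]
    · exact absurd h.symm (diff _ _)
    · exact absurd h (diff _ _)
    · rw [same _ h0 h]
  · intro l
    unfold xK up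
    simp only
    have : (2 * (((l.2 + 1 : ℕ) : ℤ) + 1 - m)) = 2 * ((l.2 : ℤ) + 1 - m) + 2 := by push_cast; ring
    rw [this, zpow_add₀ h0]
    have h4 : v ^ (2 : ℤ) = v ^ 2 := by norm_cast
    rw [h4]; ring

theorem cA_eq (hx : XOK v x) {a b : Lab} (h : a ≠ b) :
    cA v x a b = (v - v⁻¹) * x b / (x b - x a) := by
  have h1 : x b - x a ≠ 0 := sub_ne_zero.2 fun e => h (hx.inj e.symm)
  have h2 := hx.ne b
  unfold cA
  have h3 : 1 - x a / x b = (x b - x a) / x b := by field_simp
  rw [h3, div_div_eq_mul_div]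

theorem cA_add (hx : XOK v x) {a b : Lab} (h : a ≠ b) : cA v x a b + cA v x b a = v - v⁻¹ := by
  rw [cA_eq hx h, cA_eq hx h.symm]
  have h1 : x b - x a ≠ 0 := sub_ne_zero.2 fun e => h (hx.inj e.symm)
  have h2 : x a - x b ≠ 0 := sub_ne_zero.2 fun e => h (hx.inj e)
  rw [div_add_div _ _ h1 h2, div_eq_iff (mul_ne_zero h1 h2)]
  ring

theorem cA_up (hx : XOK v x) (a : Lab) : cA v x a (up 1 a) = v := by
  have h0 := hx.v0
  have h1 := hx.ne a
  have h2 : v ^ 2 - 1 ≠ 0 := sub_ne_zero.2 hx.v2
  rw [cA_eq hx (up_one_ne a).symm, hx.up]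
  have h3 : v ^ 2 * x a - x a ≠ 0 := by
    rw [show v ^ 2 * x a - x a = (v ^ 2 - 1) * x a by ring]; exact mul_ne_zero h2 h1
  rw [div_eq_iff h3]
  field_simp

theorem cA_down (hx : XOK v x) (a : Lab) : cA v x (up 1 a) a = - v⁻¹ := by
  have h := cA_add hx (up_one_ne a).symm
  rw [cA_up hx] at h
  linear_combination h

theorem cB_up (a : Lab) : cB v x a (up 1 a) = 0 := by unfold cB; rw [if_pos rfl]

theorem cB_down (hx : XOK v x) (a : Lab) : cB v x (up 1 a) a = 0 := by
  unfold cB
  split_ifs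
  · rfl
  · rw [cA_down hx]; ring

theorem cB_mul (hx : XOK v x) {a b : Lab} (h : a ≠ b) :
    cB v x a b * cB v x b a = 1 + (v - v⁻¹) * cA v x a b - cA v x a b ^ 2 := by
  have h0 := hx.v0
  by_cases h1 : b = up 1 a
  · subst h1
    rw [cB_up, cA_up hx]
    field_simp; ring
  · by_cases h2 : a = up 1 b
    · subst h2
      rw [cB_up, cA_down hx]
      field_simp; ring
    · unfold cB
      rw [if_neg h1, if_neg h2]
      have h3 := cA_add hx h
      have h4 : cA v x b a = v - v⁻¹ - cA v x a b := by linear_combination h3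
      rw [h4]
      field_simp
      ring

theorem cA_three (hx : XOK v x) {a b c : Lab} (h1 : a ≠ b) (h2 : a ≠ c) (h3 : b ≠ c) :
    cA v x a b * cA v x b c = cA v x a c * (cA v x a b + cA v x b c - (v - v⁻¹)) := by
  rw [cA_eq hx h1, cA_eq hx h2, cA_eq hx h3]
  have e1 : x b - x a ≠ 0 := sub_ne_zero.2 fun e => h1 (hx.inj e.symm)
  have e2 : x c - x a ≠ 0 := sub_ne_zero.2 fun e => h2 (hx.inj e.symm)
  have e3 : x c - x b ≠ 0 := sub_ne_zero.2 fun e => h3 (hx.inj e.symm)
  have h0 := hx.v0
  generalize v - v⁻¹ = c'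
  field_simp
  ring

theorem cA_x (hx : XOK v x) {a b : Lab} (h : a ≠ b) : cA v x a b * x a + cA v x b a * x b = 0 := by
  rw [cA_eq hx h, cA_eq hx h.symm]
  have h1 : x b - x a ≠ 0 := sub_ne_zero.2 fun e => h (hx.inj e.symm)
  have h2 : x a - x b ≠ 0 := sub_ne_zero.2 fun e => h (hx.inj e)
  rw [div_mul_eq_mul_div, div_mul_eq_mul_div, div_add_div _ _ h1 h2,
    div_eq_zero_iff]
  left; ring

theorem cA_x' (hx : XOK v x) {a b : Lab} (h : a ≠ b) :
    cA v x a b * (x b - x a) = (v - v⁻¹) * x b := by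
  rw [cA_eq hx h]
  have h1 : x b - x a ≠ 0 := sub_ne_zero.2 fun e => h (hx.inj e.symm)
  field_simp

end coeff

/-! ## The operators -/

section ops

variable {K : Type*} [Field K] {v : K} {x : Lab → K}

theorem tw_append (p z : List Lab) (a b : Lab) :
    tw v x p.length (p ++ a :: b :: z) =
      Finsupp.single (p ++ a :: b :: z) (cA v x a b) + Finsupp.single (p ++ b :: a :: z) (cB v x a b) := by
  induction p with
  | nil => rfl
  | cons c p ih =>
    rw [List.length_cons, List.cons_append, tw, ih, Finsupp.mapDomain_add, Finsupp.mapDomain_single,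
      Finsupp.mapDomain_single]
    rfl

theorem Top_append {i : ℕ} {p z : List Lab} {a b : Lab} (hp : p.length = i) (c : K) :
    Top v x i (Finsupp.single (p ++ a :: b :: z) c) =
      Finsupp.single (p ++ a :: b :: z) (c * cA v x a b) +
      Finsupp.single (p ++ b :: a :: z) (c * cB v x a b) := by
  subst hp
  unfold Top
  rw [Finsupp.linearCombination_single, tw_append, smul_add, Finsupp.smul_single, Finsupp.smul_single]
  rfl

theorem Xop_append {i : ℕ} {p z : List Lab} {a : Lab} (hp : p.length = i) (c : K) :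
    Xop x i (Finsupp.single (p ++ a :: z) c) = Finsupp.single (p ++ a :: z) (c * x a) := by
  subst hp
  unfold Xop
  rw [Finsupp.linearCombination_single, Finsupp.smul_single]
  simp

/-- quadratic relation on a word -/
theorem quad_word (hx : XOK v x) {i : ℕ} {p z : List Lab} {a b : Lab} (hp : p.length = i)
    (h : a ≠ b) :
    Top v x i (Top v x i (Finsupp.single (p ++ a :: b :: z) 1)) =
      (v - v⁻¹) • Top v x i (Finsupp.single (p ++ a :: b :: z) 1) +
        Finsupp.single (p ++ a :: b :: z) 1 := by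
  rw [Top_append hp, map_add, Top_append hp, Top_append hp, smul_add, Finsupp.smul_single,
    Finsupp.smul_single]
  have h1 := cB_mul hx h
  have h2 := cA_add hx h
  have e1 : Finsupp.single (p ++ a :: b :: z) (1 * cA v x a b * cA v x a b) +
      Finsupp.single (p ++ a :: b :: z) (1 * cB v x a b * cB v x b a) =
      Finsupp.single (p ++ a :: b :: z) ((v - v⁻¹) • (1 * cA v x a b)) +
        Finsupp.single (p ++ a :: b :: z) (1 : K) := by
    rw [← Finsupp.single_add, ← Finsupp.single_add]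
    congr 1
    rw [smul_eq_mul]
    linear_combination h1
  have e2 : Finsupp.single (p ++ b :: a :: z) (1 * cA v x a b * cB v x a b) +
      Finsupp.single (p ++ b :: a :: z) (1 * cB v x a b * cA v x b a) =
      Finsupp.single (p ++ b :: a :: z) ((v - v⁻¹) • (1 * cB v x a b)) := by
    rw [← Finsupp.single_add]
    congr 1
    rw [smul_eq_mul]
    linear_combination cB v x a b * h2
  have : ∀ A B C D E F G : List Lab →₀ K, A + D = E + G → B + C = F → A + B + (C + D) = E + F + G := by
    intro A B C D E F G h h'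
    rw [show A + B + (C + D) = (A + D) + (B + C) by abel, h, h']
    abel
  exact this _ _ _ _ _ _ _ e1 e2

/-- `T_i X_i T_i = X_{i+1}` on a word -/
theorem TXT_word (hx : XOK v x) {i : ℕ} {p z : List Lab} {a b : Lab} (hp : p.length = i)
    (h : a ≠ b) :
    Top v x i (Xop x i (Top v x i (Finsupp.single (p ++ a :: b :: z) 1))) =
      Xop x (i + 1) (Finsupp.single (p ++ a :: b :: z) 1) := by
  have e0 : Xop x (i + 1) (Finsupp.single (p ++ a :: b :: z) 1) =
      Finsupp.single (p ++ a :: b :: z) (1 * x b) := by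
    have := Xop_append (x := x) (i := i + 1) (p := p ++ [a]) (z := z) (a := b)
      (by simp [hp]) 1
    simpa using this
  rw [e0, Top_append hp, map_add, Xop_append hp, Xop_append hp, map_add, Top_append hp, Top_append hp]
  have h1 := cB_mul hx h
  have h2 := cA_add hx h
  have h3 := cA_x hx h
  have h4 := cA_x' hx h
  have e1 : Finsupp.single (p ++ a :: b :: z) (1 * cA v x a b * x a * cA v x a b) +
      Finsupp.single (p ++ a :: b :: z) (1 * cB v x a b * x b * cB v x b a) =
      Finsupp.single (p ++ a :: b :: z) (1 * x b) := by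
    rw [← Finsupp.single_add]
    congr 1
    linear_combination x b * h1 - cA v x a b * h4
  have e2 : Finsupp.single (p ++ b :: a :: z) (1 * cA v x a b * x a * cB v x a b) +
      Finsupp.single (p ++ b :: a :: z) (1 * cB v x a b * x b * cA v x b a) = 0 := by
    rw [← Finsupp.single_add, ← Finsupp.single_zero (p ++ b :: a :: z)]
    congr 1
    linear_combination cB v x a b * h3
  rw [← e1]
  have : ∀ A B C D : List Lab →₀ K, B + D = 0 → A + B + (D + C) = A + C := by
    intro A B C D h
    rw [show A + B + (D + C) = A + C + (B + D) by abel, h, add_zero]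
  have h5 := this (Finsupp.single (p ++ a :: b :: z) (1 * cA v x a b * x a * cA v x a b))
    (Finsupp.single (p ++ b :: a :: z) (1 * cA v x a b * x a * cB v x a b))
    (Finsupp.single (p ++ a :: b :: z) (1 * cB v x a b * x b * cB v x b a))
    (Finsupp.single (p ++ b :: a :: z) (1 * cB v x a b * x b * cA v x b a)) e2
  exact h5

/-- braid relation on a word -/
theorem braid_word (hx : XOK v x) {i : ℕ} {p z : List Lab} {a b c : Lab} (hp : p.length = i)
    (h1 : a ≠ b) (h2 : a ≠ c) (h3 : b ≠ c) :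
    Top v x i (Top v x (i + 1) (Top v x i (Finsupp.single (p ++ a :: b :: c :: z) 1))) =
    Top v x (i + 1) (Top v x i (Top v x (i + 1) (Finsupp.single (p ++ a :: b :: c :: z) 1))) := by
  have T1 : ∀ (a b c : Lab) (r : K), Top v x i (Finsupp.single (p ++ a :: b :: c :: z) r) =
      Finsupp.single (p ++ a :: b :: c :: z) (r * cA v x a b) +
      Finsupp.single (p ++ b :: a :: c :: z) (r * cB v x a b) := fun a b c r => Top_append hp r
  have T2 : ∀ (a b c : Lab) (r : K), Top v x (i + 1) (Finsupp.single (p ++ a :: b :: c :: z) r) =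
      Finsupp.single (p ++ a :: b :: c :: z) (r * cA v x b c) +
      Finsupp.single (p ++ a :: c :: b :: z) (r * cB v x b c) := by
    intro a b c r
    have := Top_append (v := v) (x := x) (i := i + 1) (p := p ++ [a]) (z := z) (a := b) (b := c)
      (by simp [hp]) r
    simpa using this
  simp only [T1, T2, map_add]
  have k1 := cA_three hx h1 h2 h3
  have a1 := cA_add hx h1
  have a2 := cA_add hx h2
  have a3 := cA_add hx h3
  have b1 := cB_mul hx h1
  have b3 := cB_mul hx h3
  set Aab := cA v x a b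
  set Aac := cA v x a c
  set Abc := cA v x b c
  set Aba := cA v x b a
  set Acb := cA v x c b
  set Bab := cB v x a b
  set Bac := cB v x a c
  set Bbc := cB v x b c
  set Bba := cB v x b a
  set Bcb := cB v x c b
  have hAba : Aba = v - v⁻¹ - Aab := by linear_combination a1
  have hAcb : Acb = v - v⁻¹ - Abc := by linear_combination a3
  have key : ∀ (w1 w2 w3 w4 w5 w6 : List Lab) (a1 a2 a3 a4 a5 a6 a7 a8 c1 c2 c3 c4 c5 c6 c7 c8 : K),
      a1 + a6 = c1 + c6 → a2 + a5 = c3 → a3 = c2 + c5 → a4 = c7 → a7 = c4 → a8 = c8 →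
      Finsupp.single w1 a1 + Finsupp.single w2 a2 + (Finsupp.single w3 a3 + Finsupp.single w4 a4) +
        (Finsupp.single w2 a5 + Finsupp.single w1 a6 + (Finsupp.single w5 a7 + Finsupp.single w6 a8)) =
      Finsupp.single w1 c1 + Finsupp.single w3 c2 + (Finsupp.single w2 c3 + Finsupp.single w5 c4) +
        (Finsupp.single w3 c5 + Finsupp.single w1 c6 + (Finsupp.single w4 c7 + Finsupp.single w6 c8)) := by
    intro w1 w2 w3 w4 w5 w6 a1 a2 a3 a4 a5 a6 a7 a8 c1 c2 c3 c4 c5 c6 c7 c8 e1 e2 e3 e4 e5 e6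
    have f1 : Finsupp.single w1 a1 + Finsupp.single w1 a6 =
        Finsupp.single w1 c1 + Finsupp.single w1 c6 := by
      rw [← Finsupp.single_add, ← Finsupp.single_add, e1]
    have f2 : Finsupp.single w2 a2 + Finsupp.single w2 a5 = Finsupp.single w2 c3 := by
      rw [← Finsupp.single_add, e2]
    have f3 : Finsupp.single w3 a3 = Finsupp.single w3 c2 + Finsupp.single w3 c5 := by
      rw [← Finsupp.single_add, e3]
    rw [e4, e5, e6]
    calc _ = (Finsupp.single w1 a1 + Finsupp.single w1 a6) +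
          (Finsupp.single w2 a2 + Finsupp.single w2 a5) + Finsupp.single w3 a3 +
          Finsupp.single w4 c7 + Finsupp.single w5 c4 + Finsupp.single w6 c8 := by abel
      _ = _ := by rw [f1, f2, f3]; abel
  apply key
  · rw [hAba] at *
    rw [show (1 : K) * Aab * Abc * Aab = Aab * Aab * Abc by ring,
      show (1 : K) * Bab * Aac * Bba = Aac * (Bab * Bba) by ring,
      show (1 : K) * Abc * Aab * Abc = Abc * Abc * Aab by ring,
      show (1 : K) * Bbc * Aac * Bcb = Aac * (Bbc * Bcb) by ring, b1, b3]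
    linear_combination (Aab - Abc) * k1
  · rw [hAba]
    linear_combination Bab * k1
  · rw [hAcb]
    linear_combination (-Bbc) * k1
  · ring
  · ring
  · ring

/-- far commutation on a word -/
theorem comm_word {i j : ℕ} {w : List Lab} (hij : i + 1 < j) (hw : j + 1 < w.length) :
    Top v x i (Top v x j (Finsupp.single w 1)) = Top v x j (Top v x i (Finsupp.single w 1)) := by
  obtain ⟨p, a, b, u, rfl, hp⟩ := exists_split₂ (i := i) (w := w) (by omega)
  have hlen : (p ++ a :: b :: u).length = i + 2 + u.length := by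
    simp [hp]; omega
  rw [hlen] at hw
  obtain ⟨q, c, d, z, rfl, hq⟩ := exists_split₂ (i := j - i - 2) (w := u) (by omega)
  have T1 : ∀ (a b c d : Lab) (r : K), Top v x i (Finsupp.single (p ++ a :: b :: (q ++ c :: d :: z)) r) =
      Finsupp.single (p ++ a :: b :: (q ++ c :: d :: z)) (r * cA v x a b) +
      Finsupp.single (p ++ b :: a :: (q ++ c :: d :: z)) (r * cB v x a b) :=
    fun a b c d r => Top_append hp r
  have T2 : ∀ (a b c d : Lab) (r : K), Top v x j (Finsupp.single (p ++ a :: b :: (q ++ c :: d :: z)) r) =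
      Finsupp.single (p ++ a :: b :: (q ++ c :: d :: z)) (r * cA v x c d) +
      Finsupp.single (p ++ a :: b :: (q ++ d :: c :: z)) (r * cB v x c d) := by
    intro a b c d r
    have := Top_append (v := v) (x := x) (i := j) (p := p ++ a :: b :: q) (z := z) (a := c) (b := d)
      (by simp [hp, hq]; omega) r
    simpa using this
  simp only [T1, T2, map_add]
  have f : ∀ (w : List Lab) (s t u : K), Finsupp.single w (s * t * u) = Finsupp.single w (s * u * t) := by
    intro w s t u; rw [mul_right_comm]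
  rw [f _ 1 (cA v x c d) (cA v x a b), f _ 1 (cA v x c d) (cB v x a b), f _ 1 (cB v x c d) (cA v x a b),
    f _ 1 (cB v x c d) (cB v x a b)]
  abel

theorem Xop_comm_word {i j : ℕ} {w : List Lab} (hij : i < j) (hw : j + 1 < w.length) :
    Xop x i (Top v x j (Finsupp.single w 1)) = Top v x j (Xop x i (Finsupp.single w 1)) := by
  obtain ⟨p, c, d, z, rfl, hp⟩ := exists_split₂ (i := j) (w := w) hw
  obtain ⟨q, a, r, rfl, hq⟩ : ∃ q a r, p = q ++ a :: r ∧ q.length = i := by
    refine ⟨p.take i, p[i]'(by omega), p.drop (i + 1), ?_, ?_⟩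
    · rw [List.cons_getElem_drop_succ, List.take_append_drop]
    · rw [List.length_take]; omega
  have e : ∀ (c d : Lab) (s : K), Xop x i (Finsupp.single (q ++ a :: r ++ c :: d :: z) s) =
      Finsupp.single (q ++ a :: r ++ c :: d :: z) (s * x a) := by
    intro c d s
    have := Xop_append (x := x) (i := i) (p := q) (z := r ++ c :: d :: z) (a := a) hq s
    simpa using this
  rw [Top_append hp, map_add, e, e, e, Top_append hp]
  rw [mul_right_comm, mul_right_comm 1 (cB v x c d)]

end ops

end Pool.Agent.helper27.PC
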