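import Pool.Agent.helper64.PC.SpecV
import Pool.Agent.helper10.PB.WTH

set_option autoImplicit false

namespace Pool.Agent.PC

open Pool.Agent.PB

theorem WTM (hWIM : WIM_stmt) (hGDM : GDM_stmt) (hWAM : WAM_stmt) (hWMM : WMM_stmt)
    (hMON : MON_stmt) (hDUA : DUA_stmt) : WTM_stmt := by
  intro G hW
  obtain ⟨hdd, hGG, hfd, hsz, _, _, hpr⟩ := hDUA
  obtain ⟨hT, hcase⟩ := hW
  by_cases hm : ∀ g ∈ G, Mono g.2
  · have hC : ¬ ∀ g ∈ G, Conj g.2 := fun h => hT (Or.inr (Or.inl h))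
    have hD : ¬ ∀ g ∈ G, Disj g.2 := fun h => hT (Or.inr (Or.inr h))
    rcases hMON G hm hC hD with h | h | h
    · exact hWAM G hm h
    · refine hGDM G (hWAM (dualB G) ?_ ?_)
      · intro g hg
        exact ((hpr g.1 g.2).1).1 (hm _ hg)
      · obtain ⟨s, hs⟩ := h
        refine ⟨s, ?_⟩
        rw [← WTH_fAO]
        exact (hsz G 3 fOA s).2 hs
    · exact hWMM G hm h
  · have hn : ∃ g ∈ G, ¬ Mono g.2 := by
      by_contra hc
      refine hm fun g hg => ?_
      by_contra h2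
      exact hc ⟨g, hg, h2⟩
    rcases hcase with h | h | h
    · exact absurd h hm
    · exact hWIM G hn h
    · refine hGDM G (hWIM (dualB G) ?_ h)
      obtain ⟨g, hg, hgm⟩ := hn
      refine ⟨⟨g.1, dual g.2⟩, ?_, ?_⟩
      · have e : (⟨g.1, dual (dual g.2)⟩ : Gate) = g := by rw [hdd]
        have e2 : (⟨g.1, dual (dual g.2)⟩ : Gate) ∈ G := by rw [e]; exact hg
        exact e2
      · intro h3
        exact hgm (((hpr g.1 g.2).1).1 h3)

end Pool.Agent.PC
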